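import Pool.Agent.CvC.Defs

/-!
# Package CvC-Bas: polynomials in two variables and their coefficients

Only Mathlib is needed (definitions `TD`, `Sx`, `pol`, `crd`, `lc` in `CvC/Defs`).

* `coeff_pol`: `Polynomial.coeff_monomial` twice, `Finset.sum_eq_single`: the coefficient `(i, j)` of
  `pol c` is `c ⟨(i, j), _⟩` if `i + j ≤ N` and `0` otherwise.
* `td_pol`, `pol_crd` (`Polynomial.ext` twice), `crd_pol`, `pol_inj`, `eq_of_crd` follow.
* `pol_add`, `pol_mul`, `pol_sum`, `pol_single`: by `pol_inj`-like comparison of coefficients, or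
  `map_sum`, `monomial` linear; `C (C a) * Q` multiplies all coefficients by `a`
  (`coeff_C_mul`).
* `TD.mul`: `Polynomial.coeff_mul` twice: `(PQ)_(i,j) = ∑ P_(i1,j1) Q_(i2,j2)` with `i1 + i2 = i`,
  `j1 + j2 = j`; if `i + j > N + M` then `i1 + j1 > N` or `i2 + j2 > M`.
* `crd_lc`: linearity.
-/

set_option autoImplicit false

noncomputable section

namespace Pool.Agent.CvC

open Polynomial Pool.Agent.PRc Pool.Agent.CvA

variable {k : Type} [Field k] {N M : ℕ}

theorem coeff_pol (c : Sx N → k) (i j : ℕ) : ((pol c).coeff i).coeff j =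
    if h : i + j ≤ N then c ⟨(⟨i, by omega⟩, ⟨j, by omega⟩), h⟩ else 0 := by
  have h1 : ((pol c).coeff i).coeff j =
      ∑ s : Sx N, if (s.1.1 : ℕ) = i ∧ (s.1.2 : ℕ) = j then c s else 0 := by
    unfold pol
    rw [finsetSum_coeff, finsetSum_coeff]
    refine Finset.sum_congr rfl fun s _ => ?_
    rw [coeff_monomial]
    by_cases h1 : (s.1.1 : ℕ) = i
    · rw [if_pos h1, coeff_monomial]
      by_cases h2 : (s.1.2 : ℕ) = j
      · rw [if_pos h2, if_pos ⟨h1, h2⟩]
      · rw [if_neg h2, if_neg fun h => h2 h.2]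
    · rw [if_neg h1, coeff_zero, if_neg fun h => h1 h.1]
  rw [h1]
  split_ifs with h
  · rw [Finset.sum_eq_single (⟨(⟨i, by omega⟩, ⟨j, by omega⟩), h⟩ : Sx N)]
    · rw [if_pos ⟨rfl, rfl⟩]
    · intro s _ hs
      rw [if_neg]
      rintro ⟨e1, e2⟩
      exact hs (Subtype.ext (Prod.ext (Fin.ext e1) (Fin.ext e2)))
    · intro h2
      exact absurd (Finset.mem_univ _) h2
  · refine Finset.sum_eq_zero fun s _ => ?_
    rw [if_neg]
    rintro ⟨e1, e2⟩
    have h3 := s.2
    rw [e1, e2] at h3
    exact h h3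

theorem td_pol (c : Sx N → k) : TD N (pol c) := by
  intro i j h
  rw [coeff_pol, dif_neg (by omega)]

theorem pol_crd {Q : k[X][X]} (h : TD N Q) : pol (crd N Q) = Q := by
  refine Polynomial.ext fun i => Polynomial.ext fun j => ?_
  rw [coeff_pol]
  split_ifs with h1
  · rfl
  · exact (h i j (by omega)).symm

theorem crd_pol (c : Sx N → k) : crd N (pol c) = c := by
  funext s
  change ((pol c).coeff (s.1.1 : ℕ)).coeff (s.1.2 : ℕ) = c s
  rw [coeff_pol, dif_pos s.2]

theorem pol_inj {c c' : Sx N → k} (h : pol c = pol c') : c = c' := by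
  rw [← crd_pol c, h, crd_pol]

theorem eq_of_crd {P Q : k[X][X]} (hP : TD N P) (hQ : TD N Q) (h : crd N P = crd N Q) :
    P = Q := by
  rw [← pol_crd hP, h, pol_crd hQ]

theorem pol_zero : pol (fun _ : Sx N => (0 : k)) = 0 := by
  refine Polynomial.ext fun i => Polynomial.ext fun j => ?_
  rw [coeff_pol, coeff_zero, coeff_zero]
  split_ifs <;> rfl

theorem pol_add (c c' : Sx N → k) : pol (fun s => c s + c' s) = pol c + pol c' := by
  refine Polynomial.ext fun i => Polynomial.ext fun j => ?_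
  rw [coeff_add, coeff_add, coeff_pol, coeff_pol, coeff_pol]
  split_ifs
  · rfl
  · rw [add_zero]

theorem pol_mul (a : k) (c : Sx N → k) : pol (fun s => a * c s) = C (C a) * pol c := by
  refine Polynomial.ext fun i => Polynomial.ext fun j => ?_
  rw [coeff_C_mul, coeff_C_mul, coeff_pol, coeff_pol]
  split_ifs
  · rfl
  · rw [mul_zero]

private theorem coeff_lc_Bas {β : Type} [Fintype β] (c : β → k) (q : β → k[X][X]) (i j : ℕ) :
    ((lc c q).coeff i).coeff j = ∑ b, c b * ((q b).coeff i).coeff j := by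
  unfold lc
  rw [finsetSum_coeff, finsetSum_coeff]
  refine Finset.sum_congr rfl fun b _ => ?_
  rw [coeff_C_mul, coeff_C_mul]

theorem pol_sum {β : Type} [Fintype β] (a : β → k) (c : β → Sx N → k) :
    pol (fun s => ∑ b, a b * c b s) = lc a fun b => pol (c b) := by
  refine Polynomial.ext fun i => Polynomial.ext fun j => ?_
  rw [coeff_lc_Bas, coeff_pol]
  simp only [coeff_pol]
  split_ifs
  · rfl
  · simp

open scoped Classical in
theorem pol_single (c : Sx N → k) :
    pol c = lc c fun b => pol fun s : Sx N => if s = b then (1 : k) else 0 := by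
  rw [← pol_sum]
  congr 1
  funext s
  simp

theorem TD.mono {Q : k[X][X]} (h : TD N Q) (hNM : N ≤ M) : TD M Q :=
  fun i j h1 => h i j (by omega)

theorem TD.add {P Q : k[X][X]} (hP : TD N P) (hQ : TD N Q) : TD N (P + Q) := by
  intro i j h
  rw [coeff_add, coeff_add, hP i j h, hQ i j h, add_zero]

theorem TD.sub {P Q : k[X][X]} (hP : TD N P) (hQ : TD N Q) : TD N (P - Q) := by
  intro i j h
  rw [coeff_sub, coeff_sub, hP i j h, hQ i j h, sub_zero]

theorem TD.mul {P Q : k[X][X]} (hP : TD N P) (hQ : TD M Q) : TD (N + M) (P * Q) := by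
  intro i j h
  rw [coeff_mul, finsetSum_coeff]
  refine Finset.sum_eq_zero fun x hx => ?_
  rw [coeff_mul]
  refine Finset.sum_eq_zero fun y hy => ?_
  rw [Finset.HasAntidiagonal.mem_antidiagonal] at hx hy
  rcases Nat.lt_or_ge N (x.1 + y.1) with h1 | h1
  · rw [hP _ _ h1, zero_mul]
  · rw [hQ x.2 y.2 (by omega), mul_zero]

theorem td_zero : TD N (0 : k[X][X]) := by
  intro i j _
  rw [coeff_zero, coeff_zero]

theorem td_C (a : k) : TD N (C (C a) : k[X][X]) := by
  intro i j h
  rw [coeff_C]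
  split_ifs with h1
  · rw [coeff_C, if_neg (by omega)]
  · rw [coeff_zero]

theorem td_one : TD N (1 : k[X][X]) := by
  have h := td_C (N := N) (1 : k)
  rwa [C_1, C_1] at h

theorem td_xp : TD N ((C X : k[X][X]) ^ N) := by
  intro i j h
  rw [← C_pow, coeff_C]
  split_ifs with h1
  · rw [coeff_X_pow, if_neg (by omega)]
  · rw [coeff_zero]

theorem td_lc {β : Type} [Fintype β] {q : β → k[X][X]} (hq : ∀ b, TD N (q b)) (c : β → k) :
    TD N (lc c q) := by
  intro i j h
  rw [coeff_lc_Bas]
  refine Finset.sum_eq_zero fun b _ => ?_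
  rw [hq b i j h, mul_zero]

theorem crd_add (P Q : k[X][X]) : crd N (P + Q) = fun s => crd N P s + crd N Q s := by
  funext s
  unfold crd
  rw [coeff_add, coeff_add]

theorem crd_lc {β : Type} [Fintype β] (c : β → k) (q : β → k[X][X]) :
    crd N (lc c q) = fun s => ∑ b, c b * crd N (q b) s := by
  funext s
  unfold crd
  rw [coeff_lc_Bas]

theorem mul_lc {β : Type} [Fintype β] (c : β → k) (q : β → k[X][X]) (Q : k[X][X]) :
    Q * lc c q = lc c fun b => Q * q b := by
  unfold lc
  rw [Finset.mul_sum]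
  refine Finset.sum_congr rfl fun b _ => ?_
  ring

theorem lc_sum {β γ : Type} [Fintype β] [Fintype γ] (c : β → k) (w : β → γ → k)
    (q : γ → k[X][X]) : (lc c fun b => lc (w b) q) = lc (fun g => ∑ b, c b * w b g) q := by
  unfold lc
  simp only [Finset.mul_sum]
  rw [Finset.sum_comm]
  refine Finset.sum_congr rfl fun g _ => ?_
  rw [map_sum, map_sum, Finset.sum_mul]
  refine Finset.sum_congr rfl fun b _ => ?_
  rw [C_mul, C_mul, mul_assoc]

end Pool.Agent.CvC
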