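import Pool.Agent.CvC.RelX

/-!
# Package CvC-RelE: equality of classes is first-order

As in `CvC/RelX`: `sb_pr`: finite conjunction over `j` (`PRQ.allF`) of
`∃ z : (Sx (2 * M) ⊕ Sx (4 * M - d)) → k` of an equation (`eq2_pr`). `er_pr`:
`∃ z : (Sx (2 * M) ⊕ Sx (2 * M)) → k` (`g` and `g'`) of a conjunction (`inE_pr`, `sb_pr`).
-/

set_option autoImplicit false

noncomputable section

namespace Pool.Agent.CvC

open Polynomial Pool.Agent.PRc Pool.Agent.CvA

variable {ι : Type} {d e M M0 M1 M2 M3 : ℕ}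

/-- existence of two vectors -/
private theorem ex2 {α β : Type} [Finite α] [Finite β] {P : FR (ι ⊕ (α ⊕ β))} (hP : PRQ P) :
    PRQ (fun k _ (x : ι → k) => ∃ (a : α → k) (b : β → k),
      P k (Sum.elim x (Sum.elim a b))) := by
  refine hP.ex.congr fun k _ x => ?_
  constructor
  · rintro ⟨z, hz⟩
    refine ⟨fun i => z (Sum.inl i), fun i => z (Sum.inr i), ?_⟩
    refine (iff_of_eq (congrArg (P k) ?_)).1 hz
    funext j
    rcases j with j | j | j <;> rfl
  · rintro ⟨a, b, h⟩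
    exact ⟨_, h⟩

/-- the old variables -/
private theorem old {μ : Type} {F : FF ι} (hF : PRF F) :
    PRF (fun k _ (x : ι ⊕ μ → k) => F k fun i => x (Sum.inl i)) :=
  hF.comp (G := fun i => fun k _ (x : ι ⊕ μ → k) => x (Sum.inl i)) fun i => PRF.var (Sum.inl i)

/-- the old variables -/
private theorem old2 {μ : Type} {N : ℕ} {F : FP2 ι} (hF : PR2 N F) :
    PR2 N (fun k _ (x : ι ⊕ μ → k) => F k fun i => x (Sum.inl i)) :=
  hF.comp (G := fun i => fun k _ (x : ι ⊕ μ → k) => x (Sum.inl i)) fun i => PRF.var (Sum.inl i)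

theorem sb_pr {f g g' : FP2 ι} (hf : PR2 M0 f) (hg : PR2 M1 g) (hg' : PR2 M2 g')
    {P P' : Sx (2 * M) → Sx (2 * M) → FF ι} (hP : ∀ i j, PRF (P i j))
    (hP' : ∀ i j, PRF (P' i j)) :
    PRQ (fun k _ x => Sb d M (f k x) (g k x) (g' k x) (fun i j => P i j k x)
      fun i j => P' i j k x) := by
  refine PRQ.allF fun j => ?_
  have h1 : PR2 (M1 + 2 * M) (fun k _ (x : ι ⊕ (Sx (2 * M) ⊕ Sx (4 * M - d)) → k) =>
      g k (fun i => x (Sum.inl i)) * col (fun i j => P' i j k fun i => x (Sum.inl i)) j) :=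
    (old2 hg).mul (old2 (PR2.col hP' j))
  have h2 : PR2 (M2 + 2 * M) (fun k _ (x : ι ⊕ (Sx (2 * M) ⊕ Sx (4 * M - d)) → k) =>
      g' k (fun i => x (Sum.inl i)) * lc (fun b => x (Sum.inr (Sum.inl b)))
        (col (fun i j => P i j k fun i => x (Sum.inl i)))) :=
    (old2 hg').mul (PR2.lc
      (c := fun b => fun k _ (x : ι ⊕ (Sx (2 * M) ⊕ Sx (4 * M - d)) → k) => x (Sum.inr (Sum.inl b)))
      (fun b => PRF.var (Sum.inr (Sum.inl b))) fun b => old2 (PR2.col hP b))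
  have h3 : PR2 (M0 + (4 * M - d)) (fun k _ (x : ι ⊕ (Sx (2 * M) ⊕ Sx (4 * M - d)) → k) =>
      f k (fun i => x (Sum.inl i)) * pol (fun b => x (Sum.inr (Sum.inr b)))) :=
    (old2 hf).mul (PR2.pol
      (c := fun b => fun k _ (x : ι ⊕ (Sx (2 * M) ⊕ Sx (4 * M - d)) → k) => x (Sum.inr (Sum.inr b)))
      fun b => PRF.var (Sum.inr (Sum.inr b)))
  have h4 := eq2_pr h1 ((h2.mono (M := M2 + 2 * M + (M0 + (4 * M - d))) (by omega)).add
    (h3.mono (M := M2 + 2 * M + (M0 + (4 * M - d))) (by omega)))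
  exact ex2 h4

theorem er_pr {f D : FP2 ι} (hf : PR2 M0 f) (hD : PR2 M1 D)
    {P P' : Sx (2 * M) → Sx (2 * M) → FF ι} (hP : ∀ i j, PRF (P i j))
    (hP' : ∀ i j, PRF (P' i j)) :
    PRQ (fun k _ x => ER d e M (f k x) (D k x) (fun i j => P i j k x)
      fun i j => P' i j k x) := by
  have hg : PR2 (2 * M) (fun k _ (x : ι ⊕ (Sx (2 * M) ⊕ Sx (2 * M)) → k) =>
      pol (fun b => x (Sum.inr (Sum.inl b)))) :=
    PR2.pol (c := fun b => fun k _ (x : ι ⊕ (Sx (2 * M) ⊕ Sx (2 * M)) → k) =>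
      x (Sum.inr (Sum.inl b))) fun b => PRF.var (Sum.inr (Sum.inl b))
  have hg' : PR2 (2 * M) (fun k _ (x : ι ⊕ (Sx (2 * M) ⊕ Sx (2 * M)) → k) =>
      pol (fun b => x (Sum.inr (Sum.inr b)))) :=
    PR2.pol (c := fun b => fun k _ (x : ι ⊕ (Sx (2 * M) ⊕ Sx (2 * M)) → k) =>
      x (Sum.inr (Sum.inr b))) fun b => PRF.var (Sum.inr (Sum.inr b))
  have h := (inE_pr (d := d) (e := e) (N := 2 * M) (old2 hf) (old2 hD) hg).and
    ((inE_pr (d := d) (e := e) (N := 2 * M) (old2 hf) (old2 hD) hg').and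
      ((sb_pr (d := d) (M := M) (old2 hf) hg hg' (fun i j => old (hP i j))
          fun i j => old (hP' i j)).and
        (sb_pr (d := d) (M := M) (old2 hf) hg' hg (fun i j => old (hP' i j))
          fun i j => old (hP i j))))
  exact ex2 h

end Pool.Agent.CvC
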