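import Pool.Agent.CvC.VerA
import Pool.Agent.CvK.Eqv

/-!
# Package CvC-VerE: equality of classes in coordinates

`CvK.rep_eqv` for `W = Wd E Q`, `W' = Wd E Q'`. `E (2M)`: an element is `φ (pol g)` (`mem_V`), `inE_iff`
(`d ≤ 2 M`, `Dl ≤ 2 M`, `1 ≤ 2 M` as `M = 2 d ^ 2 + 1 + Dl`). `sb_iff`: `Sb d M f g g' Q Q'` iff for all
`w ∈ W(Q')` there is `s ∈ W(Q)` with `g w = g' s`: for the columns `w = φ (col Q' j)`: `eq_iff` with
`N = 4 M` (`TD.mul`, `td_lc`, `td_pol`), `mem_Wd`; for all `w ∈ W(Q')` by linearity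
(`Submodule.span_induction`, or `mem_Wd` and choice of the `s_j`).
-/

set_option autoImplicit false

noncomputable section

namespace Pool.Agent.CvC

open Polynomial Pool.Agent.CvA Pool.Agent.CvK Pool.Agent.CvP

variable {k A B : Type} [Field k] [CommRing A] [IsDomain A] [Algebra k A] [CommRing B]
  [Algebra k B] {d : ℕ} {F : Flt k A B d} {P : Md F} (E : Cd F P)

omit [IsDomain A] in
private theorem d_le_VerE : d ≤ P.M ∧ P.Dl ≤ P.M ∧ 1 ≤ P.M := by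
  unfold Md.M
  refine ⟨?_, by omega, by omega⟩
  nlinarith [Nat.le_self_pow (two_ne_zero) d]

omit [IsDomain A] in
private theorem td4_VerE {g : Sx (2 * P.M) → k} {T : k[X][X]} (hT : TD (2 * P.M) T) :
    TD (4 * P.M) (pol g * T) := by
  have h := TD.mul (td_pol g) hT
  rwa [show 2 * P.M + 2 * P.M = 4 * P.M by ring] at h

theorem sb_iff (g g' : Sx (2 * P.M) → k) (Q Q' : Sx (2 * P.M) → Sx (2 * P.M) → k) :
    Sb d P.M E.f (pol g) (pol g') Q Q' ↔
      ∀ w ∈ Wd E Q', ∃ s ∈ Wd E Q, E.φ (pol g) * w = E.φ (pol g') * s := by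
  have hd : d ≤ 4 * P.M := by
    have := (d_le_VerE (P := P)).1
    omega
  have key : ∀ (j : Sx (2 * P.M)) (c : Sx (2 * P.M) → k),
      (∃ r : Sx (4 * P.M - d) → k,
        pol g * col Q' j = pol g' * lc c (col Q) + E.f * pol r) ↔
      E.φ (pol g) * E.φ (col Q' j) = E.φ (pol g') * E.φ (lc c (col Q)) := by
    intro j c
    rw [← map_mul, ← map_mul]
    exact (eq_iff E hd (td4_VerE (td_pol _)) (td4_VerE (td_lc (fun b => td_pol _) c))).symm
  constructor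
  · intro h w hw
    obtain ⟨c', rfl⟩ := (mem_Wd E Q' w).1 hw
    have h' : ∀ j, ∃ c : Sx (2 * P.M) → k,
        E.φ (pol g) * E.φ (col Q' j) = E.φ (pol g') * E.φ (lc c (col Q)) := fun j => by
      obtain ⟨c, hc⟩ := h j
      exact ⟨c, (key j c).1 hc⟩
    choose c hc using h'
    refine ⟨∑ j, c' j • E.φ (lc (c j) (col Q)), Submodule.sum_mem _ fun j _ =>
      Submodule.smul_mem _ _ ((mem_Wd E Q _).2 ⟨c j, rfl⟩), ?_⟩
    rw [phi_lc, Finset.mul_sum, Finset.mul_sum]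
    refine Finset.sum_congr rfl fun j _ => ?_
    rw [mul_smul_comm, mul_smul_comm, hc]
  · intro h j
    obtain ⟨s, hs, e⟩ := h (E.φ (col Q' j)) (Submodule.subset_span ⟨j, rfl⟩)
    obtain ⟨c, rfl⟩ := (mem_Wd E Q s).1 hs
    exact ⟨c, (key j c).2 e⟩

variable {R : Type} [CommRing R] [IsDedekindDomain R]
  [Algebra k R] [Algebra A R] [IsScalarTower k A R] [IsLocalization.Away P.D R]

theorem er_iff {Q Q' : Sx (2 * P.M) → Sx (2 * P.M) → k} {a1 a2 : Ideal R}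
    (h1 : Rep P (Wd E Q) a1) (h2 : Rep P (Wd E Q') a2) :
    ER d P.Dl P.M E.f E.D Q Q' ↔ cl P a1 = cl P a2 := by
  obtain ⟨hd, he, h1M⟩ := d_le_VerE (P := P)
  rw [rep_eqv P h1 h2]
  have hin : ∀ g : Sx (2 * P.M) → k,
      InE d P.Dl (2 * P.M) E.f E.D (pol g) ↔ E.φ (pol g) ∈ P.E (2 * P.M) := fun g =>
    inE_iff E (by omega) (by omega) (by omega) (td_pol g)
  constructor
  · rintro ⟨g, g', h3, h4, h5, h6⟩
    exact ⟨_, (hin g).1 h3, _, (hin g').1 h4, (sb_iff E g g' Q Q').1 h5,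
      (sb_iff E g' g Q' Q).1 h6⟩
  · rintro ⟨x, hx, x', hx', h5, h6⟩
    obtain ⟨g, rfl⟩ := (mem_V E x).1 hx.1
    obtain ⟨g', rfl⟩ := (mem_V E x').1 hx'.1
    exact ⟨g, g', (hin g).2 hx, (hin g').2 hx', (sb_iff E g g' Q Q').2 h5,
      (sb_iff E g' g Q' Q).2 h6⟩

end Pool.Agent.CvC
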