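import Pool.Agent.CvC.VerA
import Pool.Agent.CvK.Law

/-!
# Package CvC-VerL: the law in coordinates

`lr_spec`: let `W = Wd E Q`, `W' = Wd E Q'`, and `g1, g2, g3, T` as in `LR`. `φ (pol g1) ∈ E (2M) ∩
W`
(`inE_iff`, `mem_Wd`), the same for `g2`. `Wd E T` satisfies `IsT P W W' (φ g1) (φ g2)`: `t ∈ Wd E
T` iff
`t = φ (pol t')` with `InC T (pol t')` (`mem_Wd`, `pol_crd`, `td_lc`), and by hypothesis this is:
`t' `
satisfies `InI (3M) (7M - d)` for all pairs of columns, i.e. (`inI_iff` with `G0 = 4M`, `S = 3M`,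
`n = 7M`)
`t φ(col_j) φ(col_j') = φ g1 φ g2 s`, `s ∈ V (3M)`; this condition depends only on `t = φ (pol
t')`; for
all `w ∈ W`, `w' ∈ W'` by linearity in each (`mem_Wd`, `phi_lc`, choice of the `s`). By
`CvK.exists_g3` there is an element of `E (3M) ∩ Wd E T`, so `φ (pol g3)` is one. In the same way
`Wd E L` satisfies `IsW P (Wd E T) (φ g3)` (`inI_iff` with `G0 = 3M`, `S = 2M`, `n = 5M`).
`CvK.law`.

`exists_inE`: `CvK.rep_g`, `mem_Wd`, `inE_iff`.
-/

set_option autoImplicit false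

noncomputable section

namespace Pool.Agent.CvC

open Polynomial Pool.Agent.CvA Pool.Agent.CvK Pool.Agent.CvP

variable {k A B : Type} [Field k] [CommRing A] [IsDomain A] [Algebra k A] [CommRing B]
  [Algebra k B] {d : ℕ} {F : Flt k A B d} {P : Md F} (E : Cd F P)
  {R : Type} [CommRing R] [IsDedekindDomain R]
  [Algebra k R] [Algebra A R] [IsScalarTower k A R] [IsLocalization.Away P.D R]

omit [IsDomain A] in
/-- `d`, `Dl` and `1` are small -/
private theorem num_VerL (P : Md F) : 1 ≤ P.M ∧ d ≤ P.M ∧ P.Dl ≤ P.M := by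
  have h : d ≤ d ^ 2 := by nlinarith [Nat.zero_le d, F.one_le]
  unfold Md.M
  omega

private theorem colTD_VerL {N : ℕ} {β : Type} (T : Sx N → β → k) (j : β) :
    TD N (col T j) := td_pol _

omit [IsDomain A] in
/-- an element of `E N` in the space represented by a matrix, in coordinates -/
private theorem exg_VerL {N : ℕ} (h1 : 1 ≤ N) (hd : d ≤ N) (he : P.Dl ≤ N)
    {T : Sx N → Sx N → k} {g : A} (hg : g ∈ P.E N) (hT : g ∈ Wd E T) :
    ∃ g' : Sx N → k, InE d P.Dl N E.f E.D (pol g') ∧ InC T (pol g') := by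
  obtain ⟨c, hc⟩ := (mem_Wd E T g).1 hT
  have ht : TD N (lc c (col T)) := td_lc (fun b => td_pol _) c
  refine ⟨crd N (lc c (col T)), ?_, c, pol_crd ht⟩
  rw [pol_crd ht, inE_iff E h1 hd he ht, ← hc]
  exact hg

omit [IsDomain A] in
private theorem ofC_VerL {N : ℕ} {T : Sx N → Sx N → k} {g : Sx N → k} (h : InC T (pol g)) :
    E.φ (pol g) ∈ Wd E T := by
  obtain ⟨c, hc⟩ := h
  exact (mem_Wd E T _).2 ⟨c, by rw [hc]⟩

omit [IsDomain A] in
private theorem exC_VerL {N : ℕ} {T : Sx N → Sx N → k} {t : A} (h : t ∈ Wd E T) :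
    ∃ g : Sx N → k, E.φ (pol g) = t ∧ InC T (pol g) := by
  obtain ⟨c, hc⟩ := (mem_Wd E T t).1 h
  have ht : TD N (lc c (col T)) := td_lc (fun b => td_pol _) c
  exact ⟨crd N (lc c (col T)), by rw [pol_crd ht, hc], c, pol_crd ht⟩

omit [IsDomain A] [IsScalarTower k A R] in
private theorem col_VerL {N : ℕ} {β : Type} (T : Sx N → β → k) (j : β) :
    E.φ (col T j) ∈ Wd E T := Submodule.subset_span ⟨j, rfl⟩

omit [IsDomain A] in
/-- the condition of `IsT` is bilinear -/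
private theorem bil_VerL (V : Submodule k A) (t g : A) {X X' : Set A}
    (h : ∀ x ∈ X, ∀ x' ∈ X', ∃ s ∈ V, t * x * x' = g * s) :
    ∀ w ∈ Submodule.span k X, ∀ w' ∈ Submodule.span k X', ∃ s ∈ V, t * w * w' = g * s := by
  intro w hw w' hw'
  refine Submodule.span_induction₂ (p := fun x y _ _ => ∃ s ∈ V, t * x * y = g * s)
    ?_ ?_ ?_ ?_ ?_ ?_ ?_ hw hw'
  · intro x y hx hy
    exact h x hx y hy
  · intro y _
    exact ⟨0, V.zero_mem, by ring⟩
  · intro y _
    exact ⟨0, V.zero_mem, by ring⟩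
  · rintro x y z _ _ _ ⟨s, hs, e⟩ ⟨s', hs', e'⟩
    exact ⟨s + s', V.add_mem hs hs', by rw [mul_add, mul_add, add_mul, e, e']⟩
  · rintro x y z _ _ _ ⟨s, hs, e⟩ ⟨s', hs', e'⟩
    exact ⟨s + s', V.add_mem hs hs', by rw [mul_add, mul_add, e, e']⟩
  · rintro r x y _ _ ⟨s, hs, e⟩
    exact ⟨r • s, V.smul_mem _ hs, by
      rw [mul_smul_comm, smul_mul_assoc, e, mul_smul_comm]⟩
  · rintro r x y _ _ ⟨s, hs, e⟩
    exact ⟨r • s, V.smul_mem _ hs, by
      rw [mul_smul_comm, e, mul_smul_comm]⟩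

omit [IsDomain A] in
private theorem lin_VerL (V : Submodule k A) (t g : A) {X : Set A}
    (h : ∀ x ∈ X, ∃ s ∈ V, t * x = g * s) :
    ∀ w ∈ Submodule.span k X, ∃ s ∈ V, t * w = g * s := by
  intro w hw
  refine Submodule.span_induction (p := fun x _ => ∃ s ∈ V, t * x = g * s) ?_ ?_ ?_ ?_ hw
  · intro x hx
    exact h x hx
  · exact ⟨0, V.zero_mem, by ring⟩
  · rintro x y _ _ ⟨s, hs, e⟩ ⟨s', hs', e'⟩
    exact ⟨s + s', V.add_mem hs hs', by rw [mul_add, mul_add, e, e']⟩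
  · rintro r x _ ⟨s, hs, e⟩
    exact ⟨r • s, V.smul_mem _ hs, by rw [mul_smul_comm, e, mul_smul_comm]⟩

theorem exists_inE {Q : Sx (2 * P.M) → Sx (2 * P.M) → k} {a : Ideal R}
    (h : Rep P (Wd E Q) a) : ∃ g : Sx (2 * P.M) → k,
      InE d P.Dl (2 * P.M) E.f E.D (pol g) ∧ InC Q (pol g) := by
  obtain ⟨g, hg, hW⟩ := rep_g P h
  obtain ⟨e1, e2, e3⟩ := num_VerL P
  exact exg_VerL E (by omega) (by omega) (by omega) hg hW

theorem lr_spec {Q Q' L : Sx (2 * P.M) → Sx (2 * P.M) → k} {a1 a2 : Ideal R}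
    (h1 : Rep P (Wd E Q) a1) (h2 : Rep P (Wd E Q') a2)
    (h : LR d P.Dl P.M E.f E.D Q Q' L) :
    ∃ c : Ideal R, Rep P (Wd E L) c ∧ cl P c = cl P a1 * cl P a2 := by
  obtain ⟨g1, g2, g3, T, hE1, hC1, hE2, hC2, hT, hg3, hL⟩ := h
  obtain ⟨e1, e2, e3⟩ := num_VerL P
  have hg1 := (inE_iff E (N := 2 * P.M) (by omega) (by omega) (by omega) (td_pol g1)).1 hE1
  have hg2 := (inE_iff E (N := 2 * P.M) (by omega) (by omega) (by omega) (td_pol g2)).1 hE2
  have hs1 := ofC_VerL E hC1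
  have hs2 := ofC_VerL E hC2
  have hTT : IsT P (Wd E Q) (Wd E Q') (E.φ (pol g1)) (E.φ (pol g2)) (Wd E T) := by
    have hG : TD (4 * P.M) (pol g1 * pol g2) :=
      ((td_pol g1).mul (td_pol g2)).mono (by omega)
    have hI : ∀ (t : Sx (3 * P.M) → k) j j',
        InI (3 * P.M) (7 * P.M - d) (pol g1 * pol g2) E.f (pol t * (col Q j * col Q' j')) ↔
          ∃ s ∈ F.V (3 * P.M), E.φ (pol t) * E.φ (col Q j) * E.φ (col Q' j') =
            E.φ (pol g1) * E.φ (pol g2) * s := by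
      intro t j j'
      have hq : TD (7 * P.M) (pol t * (col Q j * col Q' j')) :=
        ((td_pol t).mul ((colTD_VerL Q j).mul (colTD_VerL Q' j'))).mono (by omega)
      rw [inI_iff E (S := 3 * P.M) hG hq (by omega) (by omega), map_mul, map_mul, map_mul,
        mul_assoc]
    intro t
    constructor
    · intro ht
      obtain ⟨t', rfl, hC⟩ := exC_VerL E ht
      refine ⟨wd_le E T ht, ?_⟩
      have h3 := (hT t').1 hC
      refine bil_VerL _ _ _ ?_
      rintro _ ⟨j, rfl⟩ _ ⟨j', rfl⟩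
      exact (hI t' j j').1 (h3 j j')
    · rintro ⟨ht, h3⟩
      obtain ⟨t', rfl⟩ := (mem_V E t).1 ht
      refine ofC_VerL E ((hT t').2 fun j j' => (hI t' j j').2 ?_)
      exact h3 _ (col_VerL E Q j) _ (col_VerL E Q' j')
  obtain ⟨g, hg, hgT⟩ := exists_g3 P h1 h2 hg1 hs1 hg2 hs2 hTT
  obtain ⟨hE3, hC3⟩ := hg3 (exg_VerL E (by omega) (by omega) (by omega) hg hgT)
  have hg3' := (inE_iff E (N := 3 * P.M) (by omega) (by omega) (by omega) (td_pol g3)).1 hE3
  have hs3 := ofC_VerL E hC3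
  have hW : IsW P (Wd E T) (E.φ (pol g3)) (Wd E L) := by
    have hI : ∀ (t : Sx (2 * P.M) → k) j,
        InI (2 * P.M) (5 * P.M - d) (pol g3) E.f (pol t * col T j) ↔
          ∃ s ∈ F.V (2 * P.M), E.φ (pol t) * E.φ (col T j) = E.φ (pol g3) * s := by
      intro t j
      have hq : TD (5 * P.M) (pol t * col T j) :=
        ((td_pol t).mul (colTD_VerL T j)).mono (by omega)
      rw [inI_iff E (S := 2 * P.M) (td_pol g3) hq (by omega) (by omega), map_mul]
    intro t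
    constructor
    · intro ht
      obtain ⟨t', rfl, hC⟩ := exC_VerL E ht
      refine ⟨wd_le E L ht, ?_⟩
      have h3 := (hL t').1 hC
      refine lin_VerL _ _ _ ?_
      rintro _ ⟨j, rfl⟩
      exact (hI t' j).1 (h3 j)
    · rintro ⟨ht, h3⟩
      obtain ⟨t', rfl⟩ := (mem_V E t).1 ht
      refine ofC_VerL E ((hL t').2 fun j => (hI t' j).2 ?_)
      exact h3 _ (col_VerL E T j)
  exact law P h1 h2 hg1 hs1 hg2 hs2 hTT hg3' hs3 hW

end Pool.Agent.CvC
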