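import Pool.Agent.CvC.VerA
import Pool.Agent.CvK.Mem

/-!
# Package CvC-VerX: which matrices represent ideals; every space is represented

* `dM`: `d ≤ M`, `Dl ≤ M`, `1 ≤ M` for `M = P.M = 2 d ^ 2 + 1 + Dl`.
* `xr_iff`: `CvK.rep_iff` for `W = Wd E Q` (`wd_le`) in terms of the matrix `Q`: ranks are numbers
  of linearly independent elements (`fin_rank`, `mem_Wd`, `mem_V`, `li_iff`), `g` is given by its
  coordinates (`pol_crd`, `inE_iff`), and `φ (pol t) ∈ Cg P W g` is checked on the columns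
  (`inI_iff`, `phi_lc`).
* `exists_mat`: for `W ≤ V (2M)` the space `U = {t | φ (pol t) ∈ W}` is the range of a linear map
  (a projection); `Q i j` = coordinate `i` of the image of the basis vector `j`.
-/

set_option autoImplicit false

noncomputable section

namespace Pool.Agent.CvC

open Polynomial Pool.Agent.CvA Pool.Agent.CvK Pool.Agent.CvP

variable {k A B : Type} [Field k] [CommRing A] [IsDomain A] [Algebra k A] [CommRing B]
  [Algebra k B] {d : ℕ} {F : Flt k A B d} {P : Md F} (E : Cd F P)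

omit [IsDomain A] in
theorem dM (F : Flt k A B d) (P : Md F) : d ≤ P.M ∧ P.Dl ≤ P.M ∧ 1 ≤ P.M := by
  have h1 : d ≤ d ^ 2 := Nat.le_self_pow two_ne_zero d
  unfold Md.M
  omega

/-- the parametrisation of the elements of degree at most `N` -/
private def psi {N : ℕ} (E : Cd F P) : (Sx N → k) →ₗ[k] A where
  toFun t := E.φ (pol t)
  map_add' t t' := by
    rw [← map_add, ← pol_add]
    rfl
  map_smul' c t := by
    have h1 : pol (c • t) = pol (fun s => c * t s) := rfl
    have h2 : (C (C c) : k[X][X]) = algebraMap k k[X][X] c := rfl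
    rw [RingHom.id_apply, h1, pol_mul, h2, ← Algebra.smul_def, map_smul]

omit [IsDomain A] in
theorem exists_mat {W : Submodule k A} (h : W ≤ F.V (2 * P.M)) :
    ∃ Q : Sx (2 * P.M) → Sx (2 * P.M) → k, Wd E Q = W := by
  classical
  obtain ⟨g, hg⟩ := (W.comap (psi E)).subtype.exists_leftInverse_of_injective
    (Submodule.ker_subtype _)
  set π : (Sx (2 * P.M) → k) →ₗ[k] (Sx (2 * P.M) → k) := (W.comap (psi E)).subtype ∘ₗ g with hπ
  have hr : LinearMap.range π = W.comap (psi E) := by
    apply le_antisymm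
    · rintro _ ⟨x, rfl⟩
      exact (g x).2
    · intro x hx
      refine ⟨x, ?_⟩
      have h1 := LinearMap.congr_fun hg ⟨x, hx⟩
      have h2 : g x = ⟨x, hx⟩ := h1
      rw [hπ, LinearMap.comp_apply, h2]
      rfl
  refine ⟨fun i j => π (Pi.single j 1) i, ?_⟩
  have h1 : (fun j => E.φ (col (fun i j => π (Pi.single j 1) i) j)) =
      fun j => (psi E ∘ₗ π) (Pi.basisFun k (Sx (2 * P.M)) j) := by
    funext j
    rw [Pi.basisFun_apply]
    rfl
  unfold Wd
  rw [h1]
  have h2 : Set.range (fun j => (psi E ∘ₗ π) (Pi.basisFun k (Sx (2 * P.M)) j)) =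
      (psi E ∘ₗ π) '' Set.range (Pi.basisFun k (Sx (2 * P.M))) := Set.range_comp _ _
  rw [h2, ← Submodule.map_span, (Pi.basisFun k (Sx (2 * P.M))).span_eq, Submodule.map_top,
    LinearMap.range_comp, hr, Submodule.map_comap_eq, inf_eq_right]
  intro a ha
  obtain ⟨c, hc⟩ := (mem_V E a).1 (h ha)
  exact ⟨c, hc⟩

private theorem fin_rank {S : Submodule k A} {N n : ℕ} (hS : S ≤ F.V N) :
    n ≤ Module.finrank k S ↔ ∃ v : Fin n → A, (∀ i, v i ∈ S) ∧ LinearIndependent k v := by
  have := F.fin N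
  have : FiniteDimensional k S := Submodule.finiteDimensional_of_le hS
  constructor
  · intro h
    let b := Module.finBasis k S
    refine ⟨fun i => (b (Fin.castLE h i) : A), fun i => (b (Fin.castLE h i)).2, ?_⟩
    have h1 := (b.linearIndependent.comp _ (Fin.castLE_injective h)).map' S.subtype
      (Submodule.ker_subtype _)
    exact h1
  · rintro ⟨v, hv, hl⟩
    have h1 : LinearIndependent k fun i => (⟨v i, hv i⟩ : S) :=
      LinearIndependent.of_comp S.subtype hl
    have h2 := h1.fintype_card_le_finrank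
    rwa [Fintype.card_fin] at h2

variable (R : Type) [CommRing R] [IsDedekindDomain R]
  [Algebra k R] [Algebra A R] [IsScalarTower k A R] [IsLocalization.Away P.D R]

theorem xr_iff (Q : Sx (2 * P.M) → Sx (2 * P.M) → k) :
    XR d P.Dl P.M (d * P.M + 1 - pa d) E.f E.D Q ↔ ∃ a : Ideal R, Rep P (Wd E Q) a := by
  obtain ⟨hd, he, h1⟩ := dM F P
  have hd2 : d ≤ 2 * P.M := by omega
  have htc : ∀ j, TD (2 * P.M) (col Q j) := fun j => td_pol _
  have hcol : ∀ j, E.φ (col Q j) ∈ Wd E Q := fun j => Submodule.subset_span ⟨j, rfl⟩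
  have hCg : ∀ g : A, Cg P (Wd E Q) g ≤ F.V (2 * P.M) := fun g t ht => ht.1
  have hinI : ∀ (t g : Sx (2 * P.M) → k) j, InI (2 * P.M) (4 * P.M - d) (pol g) E.f
      (pol t * col Q j) ↔ ∃ s ∈ F.V (2 * P.M), E.φ (pol t * col Q j) = E.φ (pol g) * s := by
    intro t g j
    refine inI_iff E (td_pol g) (TD.mono ((td_pol t).mul (htc j)) ?_) ?_ ?_ <;> omega
  rw [rep_iff P R (wd_le E Q)]
  refine and_congr ?_ ?_
  · rw [fin_rank (wd_le E Q)]
    constructor
    · rintro ⟨c, hc⟩
      rw [li_iff E hd2 fun i => td_lc htc _] at hc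
      exact ⟨_, fun i => (mem_Wd E Q _).2 ⟨c i, rfl⟩, hc⟩
    · rintro ⟨v, hv, hl⟩
      choose c hc using fun i => (mem_Wd E Q _).1 (hv i)
      refine ⟨c, ?_⟩
      rw [li_iff E hd2 fun i => td_lc htc _]
      have h2 : v = fun i => E.φ (lc (c i) (col Q)) := funext hc
      rwa [← h2]
  · constructor
    · rintro ⟨g, hg, ⟨c, hc⟩, t, ht, htI⟩
      refine ⟨E.φ (pol g), (inE_iff E (by omega) hd2 (by omega) (td_pol g)).1 hg, ?_, ?_⟩
      · rw [mem_Wd]
        exact ⟨c, by rw [hc]⟩
      · rw [fin_rank (hCg _)]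
        refine ⟨fun i => E.φ (pol (t i)), fun i => ⟨(mem_V E _).2 ⟨t i, rfl⟩, ?_⟩, ?_⟩
        · intro w hw
          obtain ⟨c', rfl⟩ := (mem_Wd E Q w).1 hw
          choose s hs hs' using fun j => (hinI (t i) g j).1 (htI i j)
          refine ⟨∑ j, c' j • s j, Submodule.sum_mem _ fun j _ => Submodule.smul_mem _ _ (hs j), ?_⟩
          rw [phi_lc, Finset.mul_sum, Finset.mul_sum]
          refine Finset.sum_congr rfl fun j _ => ?_
          rw [mul_smul_comm, mul_smul_comm, ← hs' j, map_mul]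
        · rwa [li_iff E hd2 fun i => td_pol _] at ht
    · rintro ⟨g, hgE, hgW, hr⟩
      obtain ⟨c, hc⟩ := (mem_Wd E Q g).1 hgW
      have htg : TD (2 * P.M) (lc c (col Q)) := td_lc htc _
      have hpg : pol (crd (2 * P.M) (lc c (col Q))) = lc c (col Q) := pol_crd htg
      rw [fin_rank (hCg _)] at hr
      obtain ⟨v, hv, hl⟩ := hr
      choose t ht using fun i => (mem_V E (v i)).1 (hv i).1
      refine ⟨crd (2 * P.M) (lc c (col Q)), ?_, ⟨c, hpg⟩, t, ?_, fun i j => ?_⟩
      · rw [inE_iff E (by omega) hd2 (by omega) (td_pol _), hpg, ← hc]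
        exact hgE
      · rw [li_iff E hd2 fun i => td_pol _]
        have h2 : v = fun i => E.φ (pol (t i)) := funext fun i => (ht i).symm
        rwa [← h2]
      · rw [hinI, hpg, ← hc, map_mul, ht]
        exact (hv i).2 _ (hcol j)

end Pool.Agent.CvC
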