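import Pool.Agent.CvC.Law
import Pool.Agent.CvC.RelE
import Pool.Agent.CvC.VerX
import Pool.Agent.CvC.VerE
import Pool.Agent.CvC.VerL

/-!
# Package CvC-Card: the orders of the class groups are definable

`card_gr`: `FOG.card_fo` with `δ = Sx (2 M) × Sx (2 M)`, `ε = Sx d ⊕ Sx e`, `M = 2 d ^ 2 + 1 + e`;
`X` = `XR d e M (d M + 1 - pa d) f D Q` (`xr_pr`), `E` = `ER d e M f D Q Q'` (`er_pr`), `F` = the function
`L` of `exists_law` for the variables, where `f = pol (a ∘ inl)`, `D = pol (a ∘ inr)` (`PR2.pol`). For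
`G = Gr P R`: `cls Q` = the class of the ideal represented by `Wd E Q` (`rep_gr`) if there is one, else
`1`. The ideal is unique for given `Wd E Q`: `CvK.rep_gen`. Onto: `CvK.rep_surj` and `exists_mat`
(`Rep P W a` gives `W = F.cut a (2M) ≤ F.V (2M)`); `AdjoinRoot h` is finite (`PRc.ext_surj`).
Law: `exists_inE`, `lr_spec`. Equality: `er_iff`. Matrices `Sx → Sx → k` and vectors
`Sx × Sx → k`: `Function.curry`.
-/

set_option autoImplicit false

noncomputable section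

namespace Pool.Agent.CvC

open Polynomial Pool.Agent.CvA Pool.Agent.CvK Pool.Agent.CvP Pool.Agent.Grz

theorem card_gr (d e s : ℕ) (hs : 0 < s) :
    ∃ N : ℕ → (Fin s → ℕ) → (Sx d ⊕ Sx e → ℕ) → ℕ,
      (∀ {n : ℕ} {p : (Fin n → ℕ) → ℕ} {c : Fin s → (Fin n → ℕ) → ℕ}
        {a : Sx d ⊕ Sx e → (Fin n → ℕ) → ℕ}, DFun n p → (∀ l, DFun n (c l)) →
        (∀ i, DFun n (a i)) → DFun n (fun v => N (p v) (fun l => c l v) fun i => a i v)) ∧
      ∀ (p : ℕ) [Fact p.Prime] (h : (ZMod p)[X]) [Fact (Irreducible h)], h.Monic →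
        h.natDegree = s → ∀ (c : Fin s → ℕ), (∀ l : Fin s, (c l : ZMod p) = h.coeff l) →
        ∀ (a : Sx d ⊕ Sx e → ℕ) (A B R : Type) [CommRing A] [IsDomain A]
          [Algebra (AdjoinRoot h) A] [CommRing B] [Algebra (AdjoinRoot h) B]
          (F : Flt (AdjoinRoot h) A B d) (P : Md F) (E : Cd F P) [CommRing R]
          [IsDedekindDomain R] [Algebra (AdjoinRoot h) R] [Algebra A R]
          [IsScalarTower (AdjoinRoot h) A R] [IsLocalization.Away P.D R],
          P.Dl = e → E.f = pol (fun i : Sx d => (a (Sum.inl i) : AdjoinRoot h)) →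
          E.D = pol (fun i : Sx e => (a (Sum.inr i) : AdjoinRoot h)) →
          N p c a = Nat.card (Gr P R) := by
  classical
  obtain ⟨M, hM⟩ : ∃ M, M = 2 * d ^ 2 + 1 + e := ⟨_, rfl⟩
  have hdM : d ≤ M := by
    rw [hM]
    nlinarith [Nat.le_self_pow (two_ne_zero) d]
  have heM : e ≤ M := by
    rw [hM]
    omega
  have hX : PRc.PRQ (ι := (Sx (2 * M) × Sx (2 * M)) ⊕ (Sx d ⊕ Sx e)) (fun k _ u =>
      XR d e M (d * M + 1 - pa d) (pol fun i => u (Sum.inr (Sum.inl i)))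
        (pol fun i => u (Sum.inr (Sum.inr i))) fun i j => u (Sum.inl (i, j))) :=
    xr_pr (f := fun k _ u => pol fun i => u (Sum.inr (Sum.inl i)))
      (D := fun k _ u => pol fun i => u (Sum.inr (Sum.inr i)))
      (P := fun i j => fun k _ u => u (Sum.inl (i, j)))
      (PR2.pol (c := fun i => fun k _ u => u (Sum.inr (Sum.inl i))) fun i => PRc.PRF.var _)
      (PR2.pol (c := fun i => fun k _ u => u (Sum.inr (Sum.inr i))) fun i => PRc.PRF.var _)
      fun i j => PRc.PRF.var _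
  have hf : PR2 (ι := (Sx (2 * M) × Sx (2 * M)) ⊕ (Sx (2 * M) × Sx (2 * M)) ⊕ (Sx d ⊕ Sx e)) d
      (fun k _ u => pol fun i => u (Sum.inr (Sum.inr (Sum.inl i)))) :=
    PR2.pol (c := fun i => fun k _ u => u (Sum.inr (Sum.inr (Sum.inl i)))) fun i => PRc.PRF.var _
  have hD : PR2 (ι := (Sx (2 * M) × Sx (2 * M)) ⊕ (Sx (2 * M) × Sx (2 * M)) ⊕ (Sx d ⊕ Sx e)) e
      (fun k _ u => pol fun i => u (Sum.inr (Sum.inr (Sum.inr i)))) :=
    PR2.pol (c := fun i => fun k _ u => u (Sum.inr (Sum.inr (Sum.inr i)))) fun i => PRc.PRF.var _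
  have hE : PRc.PRQ (ι := (Sx (2 * M) × Sx (2 * M)) ⊕ (Sx (2 * M) × Sx (2 * M)) ⊕ (Sx d ⊕ Sx e))
      (fun k _ u => ER d e M (pol fun i => u (Sum.inr (Sum.inr (Sum.inl i))))
        (pol fun i => u (Sum.inr (Sum.inr (Sum.inr i)))) (fun i j => u (Sum.inl (i, j)))
        fun i j => u (Sum.inr (Sum.inl (i, j)))) :=
    er_pr hf hD (P := fun i j => fun k _ u => u (Sum.inl (i, j)))
      (P' := fun i j => fun k _ u => u (Sum.inr (Sum.inl (i, j))))
      (fun i j => PRc.PRF.var _) fun i j => PRc.PRF.var _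
  obtain ⟨L, hL, hlaw⟩ := exists_law hdM heM
    (P := fun i j => fun k _ (u : (Sx (2 * M) × Sx (2 * M)) ⊕ (Sx (2 * M) × Sx (2 * M)) ⊕
      (Sx d ⊕ Sx e) → k) => u (Sum.inl (i, j)))
    (P' := fun i j => fun k _ u => u (Sum.inr (Sum.inl (i, j))))
    (fun i j => PRc.PRF.var _) (fun i j => PRc.PRF.var _) hf hD
  obtain ⟨N, hN, key⟩ := FOG.card_fo (δ := Sx (2 * M) × Sx (2 * M)) (ε := Sx d ⊕ Sx e) s hs
    hX hE (F := fun ij => L ij.1 ij.2) fun ij => hL ij.1 ij.2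
  refine ⟨N, hN, ?_⟩
  intro p hp h hi hm hd c hc a A B R _ _ _ _ _ F P E _ _ _ _ _ _ hDl hEf hED
  subst hDl
  have hM' : M = P.M := hM
  subst hM'
  have hfin : Finite (AdjoinRoot h) :=
    Finite.of_surjective (PRc.ext (s := s) h) fun y => PRc.ext_surj hm hd y
  have huniq : ∀ {W : Submodule (AdjoinRoot h) A} {a1 a2 : Ideal R}, Rep P W a1 →
      Rep P W a2 → a1 = a2 := by
    intro W a1 a2 h1 h2
    rw [← rep_gen P h1, ← rep_gen P h2]
  let cls : (Sx (2 * P.M) × Sx (2 * P.M) → AdjoinRoot h) → Gr P R := fun x =>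
    if hx : ∃ b : Ideal R, Rep P (Wd E fun i j => x (i, j)) b then
      ⟨cl P hx.choose, rep_gr P hx.choose_spec⟩ else 1
  have hcls : ∀ (x : Sx (2 * P.M) × Sx (2 * P.M) → AdjoinRoot h) (b : Ideal R),
      Rep P (Wd E fun i j => x (i, j)) b → (cls x : Cl P R) = cl P b := by
    intro x b hb
    have hx : ∃ b : Ideal R, Rep P (Wd E fun i j => x (i, j)) b := ⟨b, hb⟩
    have h1 : cls x = ⟨cl P hx.choose, rep_gr P hx.choose_spec⟩ := dif_pos hx
    rw [h1]
    exact congrArg (cl P) (huniq hx.choose_spec hb)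
  have hXi : ∀ x : Sx (2 * P.M) × Sx (2 * P.M) → AdjoinRoot h,
      XR d P.Dl P.M (d * P.M + 1 - pa d) (pol fun i : Sx d => (a (Sum.inl i) : AdjoinRoot h))
        (pol fun i : Sx P.Dl => (a (Sum.inr i) : AdjoinRoot h)) (fun i j => x (i, j)) ↔
      ∃ b : Ideal R, Rep P (Wd E fun i j => x (i, j)) b := by
    intro x
    rw [← xr_iff E R (fun i j => x (i, j)), hEf, hED]
  refine key p h hm hd c hc a (Gr P R) cls ?_ ?_ ?_
  · intro g
    obtain ⟨W, b, hW, hb⟩ := rep_surj P g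
    obtain ⟨Q, hQ⟩ := exists_mat E (W := W) (by
      rw [hW.2.2]
      exact inf_le_left)
    refine ⟨fun ij => Q ij.1 ij.2, ?_, ?_⟩
    · refine (hXi fun ij => Q ij.1 ij.2).2 ⟨b, ?_⟩
      show Rep P (Wd E Q) b
      rw [hQ]
      exact hW
    · apply Subtype.ext
      rw [hcls (fun ij => Q ij.1 ij.2) b (by
        show Rep P (Wd E Q) b
        rw [hQ]
        exact hW), hb]
  · intro x y hx hy
    obtain ⟨b1, hb1⟩ := (hXi x).1 hx
    obtain ⟨b2, hb2⟩ := (hXi y).1 hy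
    have h1 := exists_inE E hb1
    have h2 := exists_inE E hb2
    rw [hEf, hED] at h1 h2
    have h3 := hlaw (AdjoinRoot h) (Sum.elim x (Sum.elim y fun i => (a i : AdjoinRoot h))) h1 h2
    have h4 : LR d P.Dl P.M E.f E.D (fun i j => x (i, j)) (fun i j => y (i, j))
        (fun i j => L i j (AdjoinRoot h)
          (Sum.elim x (Sum.elim y fun i => (a i : AdjoinRoot h)))) := by
      rw [hEf, hED]
      exact h3
    obtain ⟨b3, hb3, hb4⟩ := lr_spec E hb1 hb2 h4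
    refine ⟨(hXi fun ij => L ij.1 ij.2 (AdjoinRoot h)
      (Sum.elim x (Sum.elim y fun i => (a i : AdjoinRoot h)))).2 ⟨b3, hb3⟩, ?_⟩
    apply Subtype.ext
    rw [hcls (fun ij => L ij.1 ij.2 (AdjoinRoot h)
      (Sum.elim x (Sum.elim y fun i => (a i : AdjoinRoot h)))) b3 hb3, hb4, Subgroup.coe_mul,
      hcls x b1 hb1, hcls y b2 hb2]
  · intro x y hx hy
    obtain ⟨b1, hb1⟩ := (hXi x).1 hx
    obtain ⟨b2, hb2⟩ := (hXi y).1 hy
    have h1 := er_iff E hb1 hb2
    rw [hEf, hED] at h1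
    refine Iff.trans h1 ?_
    rw [← hcls x b1 hb1, ← hcls y b2 hb2]
    exact Subtype.coe_injective.eq_iff

end Pool.Agent.CvC
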