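import Pool.Agent.CvC.Defs
import Pool.Agent.CvB.DedB
import Pool.Agent.CvF.Defs

/-!
# The coordinate ring of a plane curve in coordinates
-/

set_option autoImplicit false

noncomputable section

namespace Pool.Agent.CvC

open Polynomial Pool.Agent.CvA Pool.Agent.CvB

variable {k : Type} [Field k] {f : k[X][X]} {d : ℕ} {D : k[X]}

theorem td_iff (N : ℕ) (Q : k[X][X]) : TD N Q ↔ Q ∈ Td k N :=
  ⟨fun h i j hij => h j i (by omega), fun h i j hij => h j i (by omega)⟩

private theorem div_C (h : IsCv f d) {N : ℕ} (m : ℕ) : ∀ g : k[X][X], g ∈ Td k N →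
    g.natDegree < m → ∃ s r : k[X][X], r + f * s = g ∧ r.degree < f.degree ∧ r ∈ Td k N ∧
      (s = 0 ∨ d ≤ N ∧ s ∈ Td k (N - d)) := by
  induction m with
  | zero => exact fun g _ h1 => absurd h1 (Nat.not_lt_zero _)
  | succ m ih =>
    intro g hg hgm
    have hd := h.one_le
    by_cases h1 : g.natDegree < d
    · refine ⟨0, g, by rw [mul_zero, add_zero], ?_, hg, Or.inl rfl⟩
      exact degree_lt_degree (by rw [h.deg]; exact h1)
    · have hg0 : g ≠ 0 := by
        rintro rfl
        rw [natDegree_zero] at h1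
        omega
      have hfg : f.degree ≤ g.degree := by
        rw [degree_eq_natDegree h.monic.ne_zero, degree_eq_natDegree hg0, h.deg]
        exact Nat.cast_le.2 (not_lt.1 h1)
      have h2 := div_wf_lemma ⟨hfg, hg0⟩ h.monic
      rw [h.deg] at h2
      set q : k[X][X] := C g.leadingCoeff * X ^ (g.natDegree - d) with hq
      have hlc : g.leadingCoeff ≠ 0 := leadingCoeff_ne_zero.2 hg0
      have hn : g.natDegree ≤ N := by
        by_contra h3
        apply hlc
        ext i
        rw [coeff_zero]
        exact hg i g.natDegree (by omega)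
      have hqT : q ∈ Td k (N - d) := by
        intro i j hij
        rw [hq, coeff_C_mul, coeff_X_pow]
        split_ifs with h3
        · rw [mul_one]
          exact hg i g.natDegree (by omega)
        · rw [mul_zero, coeff_zero]
      have hfq : f * q ∈ Td k N := by
        have h3 := CvB.td_mul h.tot hqT
        rwa [show d + (N - d) = N by omega] at h3
      have h4 : (g - f * q).natDegree < g.natDegree := by
        by_cases h5 : g - f * q = 0
        · rw [h5, natDegree_zero]
          omega
        · exact natDegree_lt_natDegree h5 h2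
      obtain ⟨s, r, hs, hr, hrT, hsT⟩ := ih (g - f * q) ((Td k N).sub_mem hg hfq) (by omega)
      refine ⟨q + s, r, ?_, hr, hrT, Or.inr ⟨by omega, ?_⟩⟩
      · rw [mul_add, add_left_comm, hs]
        exact add_sub_cancel _ _
      · rcases hsT with hs0 | ⟨-, hs1⟩
        · rw [hs0, add_zero]
          exact hqT
        · exact (Td k (N - d)).add_mem hqT hs1

private theorem quo_C (h : IsCv f d) {N : ℕ} {r : k[X][X]} (hr : f * r ∈ Td k N) (h0 : r ≠ 0) :
    d ≤ N ∧ r ∈ Td k (N - d) := by
  obtain ⟨s, t, h1, h2, -, h4⟩ := div_C h ((f * r).natDegree + 1) (f * r) hr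
    (Nat.lt_succ_self _)
  have h5 := div_modByMonic_unique s t h.monic ⟨h1, h2⟩
  have h6 := div_modByMonic_unique r 0 h.monic
    ⟨by rw [zero_add], by rw [degree_zero]; exact bot_lt_iff_ne_bot.2 (by
      rw [Ne, degree_eq_bot]; exact h.monic.ne_zero)⟩
  have e : r = s := h6.1.symm.trans h5.1
  rcases h4 with h7 | h7
  · exact absurd (e.trans h7) h0
  · rw [e]
    exact h7

private theorem top_x (N : ℕ) : top N ((C X : k[X][X]) ^ N) = 1 := by
  ext j
  rw [top_coeff, ← C_pow, coeff_C]
  by_cases hj : j = 0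
  · subst hj
    simp
  · rw [if_neg hj, coeff_zero, coeff_one, if_neg hj, ite_self]

private theorem td_x (N : ℕ) : (C X : k[X][X]) ^ N ∈ Td k N := by
  intro i j hij
  rw [← C_pow, coeff_C]
  by_cases hj : j = 0
  · subst hj
    rw [if_pos rfl, coeff_X_pow, if_neg (by omega)]
  · rw [if_neg hj, coeff_zero]

/-- the coordinate ring of a plane curve in coordinates -/
def cd (h : Ok f d D) : Cd (fl h.cv) (md h) where
  φ := Ideal.Quotient.mkₐ k (Ideal.span {f})
  f := f
  D := C D
  tf := (td_iff _ _).2 h.cv.tot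
  tD := by
    intro i j hij
    rw [coeff_C]
    by_cases hi : i = 0
    · subst hi
      rw [if_pos rfl]
      exact coeff_eq_zero_of_natDegree_lt (by
        have h1 : (md h).Dl = D.natDegree := rfl
        omega)
    · rw [if_neg hi, coeff_zero]
  ker := fun Q => AdjoinRoot.mk_eq_zero
  quo := by
    intro N r hr h0
    obtain ⟨h1, h2⟩ := quo_C h.cv ((td_iff _ _).1 hr) h0
    exact ⟨h1, (td_iff _ _).2 h2⟩
  V := by
    intro N a
    refine (mem_cv f).trans ?_
    constructor
    · rintro ⟨g, hg, e⟩
      exact ⟨g, (td_iff _ _).2 hg, e⟩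
    · rintro ⟨g, hg, e⟩
      exact ⟨g, (td_iff _ _).1 hg, e⟩
  lx := by
    intro N
    have h1 := cl_mk h.cv (td_x (k := k) N)
    rw [top_x, map_one] at h1
    exact h1
  eD := rfl

theorem cd_f (h : Ok f d D) : (cd h).f = f := rfl

theorem cd_D (h : Ok f d D) : (cd h).D = C D := rfl

end Pool.Agent.CvC
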