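import Pool.Agent.PRc.LinPR

/-!
# Package CvC-LinG: linear algebra with arbitrary finite index types

Uses `kp`, `lsv` of `PRc/LDefs`, `PRc/Lin`, `PRc/LinPR` (all proved): `kp_mul`, `kp_fix`,
`lsv_spec`, `kp_pr`, `lsv_pr`, for matrices indexed by `Fin a × Fin b`; transport along
`Fintype.equivFin`.

* `exists_ker`: `K = kp A` (reindexed): `A K = 0` gives `⇐`, `K z = z` for `z` in the kernel gives
  `⇒` (with `c = z`).
* `exists_sol`: `L = lsv A y`.
* `perp`: over a field `y` is in the column space of the matrix `A` iff `∑ z_a y_a = 0` for all `z`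
  with `z A = 0`. Mathlib: the annihilator of the range of `A` (`Submodule.dualAnnihilator`,
  `Submodule.forall_dualAnnihilator_apply_eq_zero_iff`: an element is in a subspace iff all
  functionals that vanish on the subspace vanish on it), every functional on `α → k` is `y ↦ ∑ z_a
  y_a`.
* `exists_perp`: there is a matrix `K` of piecewise rational functions such that `y` is in the
  column space of `A` iff `∑_a K a a' y_a = 0` for all `a'`: `exists_ker` for the transposed matrix,
  `perp`. -/

set_option autoImplicit false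

noncomputable section

namespace Pool.Agent.CvC

open Polynomial Pool.Agent.PRc

variable {ι α β : Type} [Fintype α] [Fintype β]

theorem exists_ker {M : α → β → FF ι} (hM : ∀ a b, PRF (M a b)) : ∃ K : β → β → FF ι,
    (∀ b b', PRF (K b b')) ∧ ∀ (k : Type) [Field k] (x : ι → k) (z : β → k),
      (∀ a, ∑ b, M a b k x * z b = 0) ↔ ∃ c : β → k, ∀ b, z b = ∑ b', K b b' k x * c b' := by
  let e := Fintype.equivFin α
  let f := Fintype.equivFin β
  let A : FM ι (Fintype.card α) (Fintype.card β) := fun k _ x i j => M (e.symm i) (f.symm j) k x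
  have hA : ∀ i j, PRF (fun k _ x => A k x i j) := fun i j => hM (e.symm i) (f.symm j)
  refine ⟨fun b b' k _ x => kp _ (A k x) (f b) (f b'), fun b b' => kp_pr hA (f b) (f b'), ?_⟩
  intro k _ x z
  constructor
  · intro h
    refine ⟨z, fun b => ?_⟩
    have h1 : Matrix.mulVec (A k x) (fun j => z (f.symm j)) = 0 := by
      ext i
      have h2 := h (e.symm i)
      rw [← Equiv.sum_comp f.symm] at h2
      exact h2
    have h3 := congrFun (kp_fix (A k x) h1) (f b)
    have h4 : ∑ j, kp _ (A k x) (f b) j * z (f.symm j) = z (f.symm (f b)) := h3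
    rw [Equiv.symm_apply_apply, ← Equiv.sum_comp f] at h4
    simp only [Equiv.symm_apply_apply] at h4
    exact h4.symm
  · rintro ⟨c, hc⟩ a
    have h1 := congrFun (kp_mem (A k x) fun j => c (f.symm j)) (e a)
    have h2 : ∑ j, M (e.symm (e a)) (f.symm j) k x *
        (∑ j', kp _ (A k x) j j' * c (f.symm j')) = 0 := h1
    rw [Equiv.symm_apply_apply, ← Equiv.sum_comp f] at h2
    rw [← h2]
    refine Finset.sum_congr rfl fun b _ => ?_
    rw [hc b, Equiv.symm_apply_apply, ← Equiv.sum_comp f fun j' =>
      kp _ (A k x) (f b) j' * c (f.symm j')]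
    simp only [Equiv.symm_apply_apply]

theorem exists_sol {M : α → β → FF ι} (hM : ∀ a b, PRF (M a b)) {y : α → FF ι}
    (hy : ∀ a, PRF (y a)) : ∃ L : β → FF ι, (∀ b, PRF (L b)) ∧
      ∀ (k : Type) [Field k] (x : ι → k), (∃ z : β → k, ∀ a, ∑ b, M a b k x * z b = y a k x) →
        ∀ a, ∑ b, M a b k x * L b k x = y a k x := by
  let e := Fintype.equivFin α
  let f := Fintype.equivFin β
  let A : FM ι (Fintype.card α) (Fintype.card β) := fun k _ x i j => M (e.symm i) (f.symm j) k x
  let v : FV ι (Fintype.card α) := fun k _ x i => y (e.symm i) k x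
  have hA : ∀ i j, PRF (fun k _ x => A k x i j) := fun i j => hM (e.symm i) (f.symm j)
  have hv : ∀ i, PRF (fun k _ x => v k x i) := fun i => hy (e.symm i)
  refine ⟨fun b k _ x => lsv (A k x) (v k x) (f b), fun b => lsv_pr hA hv (f b), ?_⟩
  intro k _ x ⟨z, hz⟩ a
  have h1 : ∃ w, Matrix.mulVec (A k x) w = v k x := by
    refine ⟨fun j => z (f.symm j), ?_⟩
    ext i
    have h2 := hz (e.symm i)
    rw [← Equiv.sum_comp f.symm] at h2
    exact h2
  have h3 := congrFun (lsv_spec (A k x) h1) (e a)
  have h4 : ∑ j, M (e.symm (e a)) (f.symm j) k x * lsv (A k x) (v k x) j =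
      y (e.symm (e a)) k x := h3
  rw [Equiv.symm_apply_apply, ← Equiv.sum_comp f] at h4
  simp only [Equiv.symm_apply_apply] at h4
  exact h4

theorem perp {k : Type} [Field k] (A : α → β → k) (y : α → k) :
    (∃ z : β → k, ∀ a, y a = ∑ b, A a b * z b) ↔
      ∀ w : α → k, (∀ b, ∑ a, w a * A a b = 0) → ∑ a, w a * y a = 0 := by
  classical
  constructor
  · rintro ⟨z, hz⟩ w hw
    have h1 : ∑ a, w a * y a = ∑ b, (∑ a, w a * A a b) * z b := by
      simp only [hz, Finset.mul_sum, Finset.sum_mul, mul_assoc]
      exact Finset.sum_comm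
    rw [h1]
    exact Finset.sum_eq_zero fun b _ => by rw [hw b, zero_mul]
  · intro h
    let T : (β → k) →ₗ[k] (α → k) := Matrix.mulVecLin A
    have h1 : y ∈ LinearMap.range T := by
      by_contra hy
      obtain ⟨φ, hne, hφ'⟩ := Submodule.exists_dual_map_eq_bot_of_notMem hy inferInstance
      have hφ : ∀ u ∈ LinearMap.range T, φ u = 0 := by
        intro u hu
        have h5 : φ u ∈ (LinearMap.range T).map φ := ⟨u, hu, rfl⟩
        rw [hφ'] at h5
        exact (Submodule.mem_bot k).1 h5
      apply hne
      have h2 : ∀ u : α → k, φ u = ∑ a, φ (Pi.single a 1) * u a := by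
        intro u
        conv_lhs => rw [pi_eq_sum_univ' u]
        rw [map_sum]
        refine Finset.sum_congr rfl fun a _ => ?_
        rw [map_smul, smul_eq_mul, mul_comm]
      rw [h2]
      refine h _ fun b => ?_
      have h3 := hφ (T (Pi.single b 1)) ⟨_, rfl⟩
      rw [h2] at h3
      rw [← h3]
      refine Finset.sum_congr rfl fun a _ => ?_
      congr 1
      change A a b = Matrix.mulVec A (Pi.single b 1) a
      rw [Matrix.mulVec_single_one]
      rfl
    obtain ⟨z, hz⟩ := h1
    exact ⟨z, fun a => (congrFun hz a).symm⟩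

theorem exists_perp {M : α → β → FF ι} (hM : ∀ a b, PRF (M a b)) : ∃ K : α → α → FF ι,
    (∀ a a', PRF (K a a')) ∧ ∀ (k : Type) [Field k] (x : ι → k) (y : α → k),
      (∃ z : β → k, ∀ a, y a = ∑ b, M a b k x * z b) ↔ ∀ a', ∑ a, K a a' k x * y a = 0 := by
  classical
  obtain ⟨K, hK, hK'⟩ := exists_ker (M := fun b a => M a b) fun b a => hM a b
  refine ⟨K, hK, fun k _ x y => ?_⟩
  rw [perp (fun a b => M a b k x) y]
  constructor
  · intro h a'
    refine h (fun a => K a a' k x) ?_
    intro b
    have h1 := (hK' k x fun a => K a a' k x).2 ⟨Pi.single a' 1, fun a => ?_⟩ b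
    · rw [← h1]
      exact Finset.sum_congr rfl fun a _ => mul_comm _ _
    · rw [Finset.sum_eq_single a']
      · rw [Pi.single_eq_same, mul_one]
      · intro j _ hj
        rw [Pi.single_eq_of_ne hj, mul_zero]
      · intro h2
        exact absurd (Finset.mem_univ _) h2
  · intro h w hw
    obtain ⟨c, hc⟩ := (hK' k x w).1 fun b => by
      rw [← hw b]
      exact Finset.sum_congr rfl fun a _ => mul_comm _ _
    have h1 : ∑ a, w a * y a = ∑ a', c a' * ∑ a, K a a' k x * y a := by
      simp only [hc, Finset.mul_sum, Finset.sum_mul]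
      rw [Finset.sum_comm]
      refine Finset.sum_congr rfl fun a' _ => Finset.sum_congr rfl fun a _ => ?_
      ring
    rw [h1]
    exact Finset.sum_eq_zero fun a' _ => by rw [h a', mul_zero]

end Pool.Agent.CvC
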