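import Pool.Agent.CvC.PR
import Pool.Agent.CvC.LinG

/-!
# Package CvC-Colon: colon spaces are piecewise rational

`exists_colon`: the matrix `K` whose column space is the space of the `t` with
`t U_j ∈ G V_S` modulo `f` for all `j`.

Proof. Let `B` be the matrix with rows `Sx n` and columns `Sx S ⊕ Sx R`, whose columns are the
coefficients (`crd n`) of `G * mon v` (`v ∈ Sx S`) and of `f * mon v` (`v ∈ Sx R`), where
`mon v = pol (indicator of v)` (`pol_single`, `mul_lc`). All these polynomials have total degree at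
most `n`. A polynomial `Q` with `TD n Q` satisfies `InI S R G f Q` iff `crd n Q` is in the column
space of `B` (`crd_lc`, `eq_of_crd`). By `exists_perp` there are `Kq a a'` with: iff
`∑_a Kq a a' (crd n Q a) = 0` for all `a' ∈ Sx n`. For `Q = pol t * U_j = ∑_v t_v (mon v * U_j)` this is
a linear condition on `t` with the coefficients `M (j, a') v = ∑_a Kq a a' crd n (mon v * U_j) a`, a
piecewise rational function (`crd_pr`, `PR2.mul`, `PR2.pol`). `exists_ker` with the rows `J × Sx n` and
the columns `Sx L1` gives `K`.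

`exists_colonC` is the same in terms of `InC` (`InC K (pol t) ↔ ∃ c, ∀ i, t i = ∑_j K i j c_j` by
`pol_sum`, `pol_inj`).
-/

set_option autoImplicit false

noncomputable section

namespace Pool.Agent.CvC

open Polynomial Pool.Agent.PRc Pool.Agent.CvA

variable {ι : Type}

/-- the monomial with index `v` -/
private def mon {k : Type} [Field k] {N : ℕ} (v : Sx N) : k[X][X] :=
  pol fun s : Sx N => if s = v then (1 : k) else 0

private theorem pol_lc {k : Type} [Field k] {N : ℕ} (c : Sx N → k) : pol c = lc c mon :=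
  pol_single c

private theorem crd_mul_pol {k : Type} [Field k] {N n : ℕ} (c : Sx N → k) (Q : k[X][X])
    (a : Sx n) : crd n (Q * pol c) a = ∑ v, c v * crd n (Q * mon v) a := by
  rw [pol_lc, mul_lc, crd_lc]

private theorem mon_pr {N : ℕ} (v : Sx N) : PR2 (ι := ι) N (fun _ _ _ => mon v) := by
  refine (PR2.pol (c := fun s : Sx N => fun k _ _ => if s = v then (1 : k) else 0) ?_).congr
    fun k _ x => rfl
  intro s
  by_cases h : s = v
  · have := PRF.int (ι := ι) 1
    simpa [h] using this
  · have := PRF.int (ι := ι) 0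
    simpa [h] using this

theorem inC_iff {k : Type} [Field k] {N : ℕ} (K : Sx N → Sx N → k) (t : Sx N → k) :
    InC K (pol t) ↔ ∃ c : Sx N → k, ∀ i, t i = ∑ j, K i j * c j := by
  have h : ∀ c : Sx N → k, lc c (col K) = pol fun i => ∑ j, K i j * c j := by
    intro c
    have h1 := pol_sum c (fun j i => K i j)
    have h2 : (fun i => ∑ j, K i j * c j) = fun s => ∑ b, c b * K s b := by
      funext i
      exact Finset.sum_congr rfl fun j _ => mul_comm _ _
    rw [h2, h1]
    rfl
  unfold InC
  constructor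
  · rintro ⟨c, hc⟩
    rw [h c] at hc
    exact ⟨c, fun i => congrFun (pol_inj hc) i⟩
  · rintro ⟨c, hc⟩
    refine ⟨c, ?_⟩
    rw [h c]
    exact congrArg pol (funext hc)

/-- the matrix of `(s, r) ↦ G s + f r` -/
private def Bm (S R n : ℕ) (G f : FP2 ι) (a : Sx n) : Sx S ⊕ Sx R → FF ι
  | Sum.inl v => fun k _ x => crd n (G k x * mon v) a
  | Sum.inr v => fun k _ x => crd n (f k x * mon v) a

private theorem inI_iff {S R n G0 d : ℕ} {G f : FP2 ι} (hG : PR2 G0 G) (hf : PR2 d f)
    (h2 : G0 + S ≤ n) (h3 : d + R ≤ n) (k : Type) [Field k] (x : ι → k) {Q : k[X][X]}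
    (hQ : TD n Q) : InI S R (G k x) (f k x) Q ↔
      ∃ z : Sx S ⊕ Sx R → k, ∀ a, crd n Q a = ∑ b, Bm S R n G f a b k x * z b := by
  have key : ∀ (s : Sx S → k) (r : Sx R → k) (a : Sx n),
      crd n (G k x * pol s + f k x * pol r) a =
        ∑ b, Bm S R n G f a b k x * (Sum.elim s r b : k) := by
    intro s r a
    rw [crd_add, Fintype.sum_sum_type]
    simp only [crd_mul_pol, Bm, Sum.elim_inl, Sum.elim_inr]
    congr 1 <;> exact Finset.sum_congr rfl fun v _ => mul_comm _ _
  unfold InI
  constructor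
  · rintro ⟨s, r, rfl⟩
    exact ⟨Sum.elim s r, key s r⟩
  · rintro ⟨z, hz⟩
    refine ⟨fun v => z (Sum.inl v), fun v => z (Sum.inr v), ?_⟩
    refine eq_of_crd hQ (TD.add ((TD.mul (hG.td k x) (td_pol _)).mono h2)
      ((TD.mul (hf.td k x) (td_pol _)).mono h3)) ?_
    funext a
    rw [hz a, key]
    refine Finset.sum_congr rfl fun b _ => ?_
    cases b <;> rfl

theorem exists_colon {J : Type} [Fintype J] {L1 L0 G0 S R d n : ℕ} {U : J → FP2 ι}
    (hU : ∀ j, PR2 L0 (U j)) {G f : FP2 ι} (hG : PR2 G0 G) (hf : PR2 d f) (h1 : L1 + L0 ≤ n)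
    (h2 : G0 + S ≤ n) (h3 : d + R ≤ n) :
    ∃ K : Sx L1 → Sx L1 → FF ι, (∀ i j, PRF (K i j)) ∧
      ∀ (k : Type) [Field k] (x : ι → k) (t : Sx L1 → k),
        InC (fun i j => K i j k x) (pol t) ↔
          ∀ j, InI S R (G k x) (f k x) (pol t * U j k x) := by
  have hB : ∀ a b, PRF (Bm S R n G f a b) := by
    intro a b
    cases b with
    | inl v => exact crd_pr (hG.mul (mon_pr v)) n a
    | inr v => exact crd_pr (hf.mul (mon_pr v)) n a
  obtain ⟨Kq, hKq, hperp⟩ := exists_perp hB
  have hM : ∀ (p : J × Sx n) (v : Sx L1),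
      PRF (fun k _ x => ∑ a, Kq a p.2 k x * crd n (U p.1 k x * mon v) a : FF ι) := by
    intro p v
    exact PRF.sum _ fun a _ => (hKq a p.2).mul (crd_pr ((hU p.1).mul (mon_pr v)) n a)
  obtain ⟨K, hK, hker⟩ := exists_ker hM
  refine ⟨K, hK, fun k _ x t => ?_⟩
  rw [inC_iff, ← hker k x t]
  have hj : ∀ j, InI S R (G k x) (f k x) (pol t * U j k x) ↔
      ∀ a' : Sx n, ∑ v, (∑ a, Kq a a' k x * crd n (U j k x * mon v) a) * t v = 0 := by
    intro j
    have hQ : TD n (pol t * U j k x) := (TD.mul (td_pol t) ((hU j).td k x)).mono h1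
    rw [inI_iff hG hf h2 h3 k x hQ, hperp k x]
    refine forall_congr' fun a' => ?_
    have : ∑ a, Kq a a' k x * crd n (pol t * U j k x) a =
        ∑ v, (∑ a, Kq a a' k x * crd n (U j k x * mon v) a) * t v := by
      simp only [mul_comm (pol t) (U j k x), crd_mul_pol, Finset.mul_sum, Finset.sum_mul]
      rw [Finset.sum_comm]
      refine Finset.sum_congr rfl fun v _ => Finset.sum_congr rfl fun a _ => ?_
      ring
    rw [this]
  simp only [hj]
  constructor
  · intro h j a'
    exact h (j, a')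
  · rintro h ⟨j, a'⟩
    exact h j a'

end Pool.Agent.CvC
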