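import Pool.Agent.PRc.LinPR
import Pool.Agent.FOG.Card
import Pool.Agent.CvK.Defs

/-!
# ALL CURVES: coordinates (definitions, page section 8)

Polynomials in `x`, `y` over `k` are elements of `k[X][X]`: `Q.coeff i` is the coefficient of `y ^ i`,
a polynomial in `x`; `x` is `C X`, `y` is `X`.

* `TD N Q`: the total degree of `Q` is at most `N`; `Sx N`: the pairs `(i, j)` with `i + j ≤ N`;
  `pol c`: the polynomial with the coefficients `c`; `crd N Q`: the coefficients;
  `lc c q = ∑ c_j q_j`; `col P j`: column `j` of a matrix as a polynomial.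
* `FP2 ι`: families of such polynomials, one for each field; `PR2 N F`: the total degree of the
  polynomials is at most `N` and the coefficients are piecewise rational functions.
* `InE d e N f D Q`: `Q` is in `E N` modulo `f`; `InC P Q`: `Q` is in the column space of `P`;
  `InI S R G f Q`: `Q ∈ G V_S` modulo `f` (cofactor of total degree at most `R`).
* `XR`: the columns of `P` represent an ideal (page 6.7); `ER`: equality of classes (page 6.6).
* `Cd F P`: the filtered algebra `F` with modulus `P` is the coordinate ring `k[x, y] / (f)`.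
-/

set_option autoImplicit false

noncomputable section

namespace Pool.Agent.CvC

open Polynomial Pool.Agent.PRc Pool.Agent.CvA

/-- the pairs `(i, j)` with `i + j ≤ N`: the monomials `y ^ i x ^ j` -/
abbrev Sx (N : ℕ) : Type := {s : Fin (N + 1) × Fin (N + 1) // (s.1 : ℕ) + (s.2 : ℕ) ≤ N}

section

variable {k : Type} [Field k]

/-- the total degree is at most `N` -/
def TD (N : ℕ) (Q : k[X][X]) : Prop := ∀ i j, N < i + j → (Q.coeff i).coeff j = 0

/-- the polynomial with the coefficients `c` -/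
def pol {N : ℕ} (c : Sx N → k) : k[X][X] :=
  ∑ s : Sx N, monomial (s.1.1 : ℕ) (monomial (s.1.2 : ℕ) (c s))

/-- the coefficients -/
def crd (N : ℕ) (Q : k[X][X]) : Sx N → k := fun s => (Q.coeff (s.1.1 : ℕ)).coeff (s.1.2 : ℕ)

/-- linear combinations -/
def lc {β : Type} [Fintype β] (c : β → k) (q : β → k[X][X]) : k[X][X] := ∑ b, C (C (c b)) * q b

/-- column `j` of a matrix as a polynomial -/
def col {N : ℕ} {β : Type} (P : Sx N → β → k) (j : β) : k[X][X] := pol fun i => P i j

/-- `Q` is in `E N` modulo `f` -/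
def InE (d e N : ℕ) (f D Q : k[X][X]) : Prop :=
  (∃ (u : Sx (N - 1) → k) (r : Sx (N - d) → k), Q = C X ^ N + pol u + f * pol r) ∧
    ∃ (h : Sx (N - e) → k) (r : Sx (N - d) → k), Q = 1 + D * pol h + f * pol r

/-- `Q` is a linear combination of the columns of `P` -/
def InC {N : ℕ} (P : Sx N → Sx N → k) (Q : k[X][X]) : Prop := ∃ c : Sx N → k, Q = lc c (col P)

/-- `Q ∈ G V_S` modulo `f` -/
def InI (S R : ℕ) (G f Q : k[X][X]) : Prop :=
  ∃ (s : Sx S → k) (r : Sx R → k), Q = G * pol s + f * pol r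

/-- the polynomials `q i` are linearly independent modulo `f V_R` -/
def LI (R : ℕ) (f : k[X][X]) {n : ℕ} (q : Fin n → k[X][X]) : Prop :=
  ∀ (c : Fin n → k) (r : Sx R → k), lc c q = f * pol r → c = 0

/-- The columns of `P` represent an ideal: `P` has rank at least `n` modulo `f`, there is `g` in
`E (2 M)` in the column space, and the space of the `t` with `t W ⊆ g V (2 M)` has dimension at
least `n`. -/
def XR (d e M n : ℕ) (f D : k[X][X]) (P : Sx (2 * M) → Sx (2 * M) → k) : Prop :=
  (∃ c : Fin n → Sx (2 * M) → k, LI (2 * M - d) f fun i => lc (c i) (col P)) ∧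
    ∃ g : Sx (2 * M) → k, InE d e (2 * M) f D (pol g) ∧ InC P (pol g) ∧
      ∃ t : Fin n → Sx (2 * M) → k, (LI (2 * M - d) f fun i => pol (t i)) ∧
        ∀ i j, InI (2 * M) (4 * M - d) (pol g) f (pol (t i) * col P j)

/-- one inclusion: `g W(P') ⊆ g' W(P)` modulo `f` -/
def Sb (d M : ℕ) (f g g' : k[X][X]) (P P' : Sx (2 * M) → Sx (2 * M) → k) : Prop :=
  ∀ j, ∃ (c : Sx (2 * M) → k) (r : Sx (4 * M - d) → k),
    g * col P' j = g' * lc c (col P) + f * pol r

/-- the classes of the ideals represented by `P` and `P'` are equal -/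
def ER (d e M : ℕ) (f D : k[X][X]) (P P' : Sx (2 * M) → Sx (2 * M) → k) : Prop :=
  ∃ g g' : Sx (2 * M) → k, InE d e (2 * M) f D (pol g) ∧ InE d e (2 * M) f D (pol g') ∧
    Sb d M f (pol g) (pol g') P P' ∧ Sb d M f (pol g') (pol g) P' P

/-- `L` represents the product of the ideals represented by `P` and `P'` -/
def LR (d e M : ℕ) (f D : k[X][X]) (P P' L : Sx (2 * M) → Sx (2 * M) → k) : Prop :=
  ∃ (g1 g2 : Sx (2 * M) → k) (g3 : Sx (3 * M) → k) (T : Sx (3 * M) → Sx (3 * M) → k),
    InE d e (2 * M) f D (pol g1) ∧ InC P (pol g1) ∧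
    InE d e (2 * M) f D (pol g2) ∧ InC P' (pol g2) ∧
    (∀ t : Sx (3 * M) → k, InC T (pol t) ↔
      ∀ j j', InI (3 * M) (7 * M - d) (pol g1 * pol g2) f (pol t * (col P j * col P' j'))) ∧
    ((∃ g : Sx (3 * M) → k, InE d e (3 * M) f D (pol g) ∧ InC T (pol g)) →
      InE d e (3 * M) f D (pol g3) ∧ InC T (pol g3)) ∧
    ∀ t : Sx (2 * M) → k, InC L (pol t) ↔
      ∀ j, InI (2 * M) (5 * M - d) (pol g3) f (pol t * col T j)

end

/-- families of polynomials in two variables, one for each field -/
abbrev FP2 (ι : Type) : Type 1 := ∀ (k : Type) [Field k], (ι → k) → k[X][X]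

/-- the total degree is at most `N`, the coefficients are piecewise rational functions -/
structure PR2 {ι : Type} (N : ℕ) (F : FP2 ι) : Prop where
  td : ∀ (k : Type) [Field k] (x : ι → k), TD N (F k x)
  pr : ∀ i j, PRF (fun k _ x => ((F k x).coeff i).coeff j)

/-- The filtered algebra `F` with modulus `P` is the coordinate ring of the plane curve `f = 0`. -/
structure Cd {k A B : Type} [Field k] [CommRing A] [Algebra k A] [CommRing B] [Algebra k B]
    {d : ℕ} (F : Flt k A B d) (P : Md F) where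
  /-- the residue map -/
  φ : k[X][X] →ₐ[k] A
  /-- the equation of the curve -/
  f : k[X][X]
  /-- the modulus -/
  D : k[X][X]
  tf : TD d f
  tD : TD P.Dl D
  ker : ∀ Q, φ Q = 0 ↔ f ∣ Q
  quo : ∀ (N : ℕ) (r : k[X][X]), TD N (f * r) → r ≠ 0 → d ≤ N ∧ TD (N - d) r
  V : ∀ (N : ℕ) (a : A), a ∈ F.V N ↔ ∃ Q, TD N Q ∧ φ Q = a
  lx : ∀ N, F.l N (φ (C X ^ N)) = 1
  eD : φ D = P.D

/-- the space represented by a matrix -/
def Wd {k A B : Type} [Field k] [CommRing A] [Algebra k A] [CommRing B] [Algebra k B]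
    {d : ℕ} {F : Flt k A B d} {P : Md F} (E : Cd F P) {N : ℕ} {β : Type} (Q : Sx N → β → k) :
    Submodule k A :=
  Submodule.span k (Set.range fun j => E.φ (col Q j))

end Pool.Agent.CvC
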