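import Pool.Agent.CvC.PR
import Pool.Agent.CvC.LinG

/-!
# Package CvC-Elem: elements of `E N` in a column space

* `exists_sol2`: systems of linear equations between polynomials of bounded total degree: compare
  the coefficients (`eq_of_crd`, `crd_lc`): `exists_sol` with rows `α × Sx N`, matrix
  `crd N (Q a b) s`, right side `crd N (Y a) s` (`crd_pr`).
* `exists_g`: the system for `InE`, `InC`: unknowns `c` (`Sx N`), `u` (`Sx (N - 1)`), `r`
  (`Sx (N - d)`), `h` (`Sx (N - e)`), `r'` (`Sx (N - d)`) together, two equations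
  `lc c (col P) - pol u - f * pol r = C X ^ N` and `lc c (col P) - D * pol h - f * pol r' = 1`;
  `pol u = lc u (mon)` with `pol_single`. Let `c` be the solution; `g = crd N (lc c (col P))`, i.e.
  `g i = ∑_j c_j P i j` (`pol_sum`).
-/

set_option autoImplicit false

noncomputable section

namespace Pool.Agent.CvC

open Polynomial Pool.Agent.PRc Pool.Agent.CvA

variable {ι : Type} {N : ℕ}

theorem exists_sol2 {α β : Type} [Fintype α] [Fintype β] {Q : α → β → FP2 ι}
    (hQ : ∀ a b, PR2 N (Q a b)) {Y : α → FP2 ι} (hY : ∀ a, PR2 N (Y a)) :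
    ∃ L : β → FF ι, (∀ b, PRF (L b)) ∧ ∀ (k : Type) [Field k] (x : ι → k),
      (∃ z : β → k, ∀ a, lc z (fun b => Q a b k x) = Y a k x) →
        ∀ a, lc (fun b => L b k x) (fun b => Q a b k x) = Y a k x := by
  classical
  obtain ⟨L, hL, hL2⟩ := exists_sol (ι := ι) (α := α × Sx N) (β := β)
    (M := fun p b k _ x => crd N (Q p.1 b k x) p.2) (fun p b => crd_pr (hQ p.1 b) N p.2)
    (y := fun p k _ x => crd N (Y p.1 k x) p.2) (fun p => crd_pr (hY p.1) N p.2)
  refine ⟨L, hL, fun k _ x hz a => ?_⟩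
  obtain ⟨z, hz⟩ := hz
  have h1 := hL2 k x ⟨z, fun p => by
    have h2 := congrFun (congrArg (crd N) (hz p.1)) p.2
    rw [crd_lc] at h2
    rw [← h2]
    exact Finset.sum_congr rfl fun b _ => mul_comm _ _⟩
  refine eq_of_crd (N := N) (td_lc (fun b => (hQ a b).td k x) _) ((hY a).td k x) ?_
  rw [crd_lc]
  funext s
  have h3 := h1 (a, s)
  dsimp only at h3 ⊢
  rw [← h3]
  exact Finset.sum_congr rfl fun b _ => mul_comm _ _

private theorem neg_El {F : FP2 ι} (hF : PR2 N F) : PR2 N (fun k _ x => -F k x) :=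
  (PR2.zero.sub hF).congr fun _ _ _ => zero_sub _

open scoped Classical in
/-- the monomials -/
private def mon_El (N : ℕ) (b : Sx N) : FP2 ι :=
  fun k _ _ => pol fun s : Sx N => if s = b then (1 : k) else 0

private theorem mon_pr_El (N : ℕ) (b : Sx N) : PR2 (ι := ι) N (mon_El N b) := by
  classical
  refine (PR2.pol (ι := ι) (N := N) (c := fun s => if s = b then fun k _ _ => (1 : k) else
    fun k _ _ => (0 : k)) fun s => ?_).congr fun k _ x => ?_
  · split_ifs
    · exact PRF.one
    · exact PRF.zero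
  · unfold mon_El
    congr 1
    funext s
    by_cases h : s = b
    · rw [if_pos h, if_pos h]
    · rw [if_neg h, if_neg h]

private theorem lc_mon_El {k : Type} [Field k] (x : ι → k) (N : ℕ) (c : Sx N → k) (T : k[X][X]) :
    (∑ b, C (C (c b)) * (-(T * mon_El N b k x))) = -(T * pol c) := by
  classical
  rw [pol_single c]
  unfold lc
  rw [Finset.mul_sum, ← Finset.sum_neg_distrib]
  refine Finset.sum_congr rfl fun b _ => ?_
  unfold mon_El
  ring

theorem exists_g {d e : ℕ} (hd : d ≤ N) (he : e ≤ N) {P : Sx N → Sx N → FF ι}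
    (hP : ∀ i j, PRF (P i j)) {f D : FP2 ι} (hf : PR2 d f) (hD : PR2 e D) :
    ∃ g : Sx N → FF ι, (∀ s, PRF (g s)) ∧ ∀ (k : Type) [Field k] (x : ι → k),
      (∃ g' : Sx N → k, InE d e N (f k x) (D k x) (pol g') ∧
        InC (fun i j => P i j k x) (pol g')) →
      InE d e N (f k x) (D k x) (pol fun s => g s k x) ∧
        InC (fun i j => P i j k x) (pol fun s => g s k x) := by
  classical
  have hmf : ∀ b : Sx (N - d), PR2 N (fun k _ x => -(f k x * mon_El (ι := ι) (N - d) b k x)) :=
    fun b => neg_El ((hf.mul (mon_pr_El (N - d) b)).mono (by omega))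
  have hmD : ∀ b : Sx (N - e), PR2 N (fun k _ x => -(D k x * mon_El (ι := ι) (N - e) b k x)) :=
    fun b => neg_El ((hD.mul (mon_pr_El (N - e) b)).mono (by omega))
  have hm1 : ∀ b : Sx (N - 1), PR2 N (fun k _ x => -((1 : k[X][X]) *
      mon_El (ι := ι) (N - 1) b k x)) :=
    fun b => neg_El (((PR2.one (N := 0)).mul (mon_pr_El (N - 1) b)).mono (by omega))
  have hcol : ∀ j : Sx N, PR2 N (fun k _ x => col (fun i j => P i j k x) j) :=
    fun j => PR2.col hP j
  have h0 : PR2 (ι := ι) N (fun _ _ _ => 0) := PR2.zero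
  let Q : Bool → (Sx N ⊕ Sx (N - 1) ⊕ Sx (N - d) ⊕ Sx (N - e) ⊕ Sx (N - d)) → FP2 ι :=
    fun a => Sum.elim (fun j k _ x => col (fun i j => P i j k x) j)
      (Sum.elim (fun b k _ x => if a = true then -((1 : k[X][X]) * mon_El (N - 1) b k x) else 0)
      (Sum.elim (fun b k _ x => if a = true then -(f k x * mon_El (N - d) b k x) else 0)
      (Sum.elim (fun b k _ x => if a = true then 0 else -(D k x * mon_El (N - e) b k x))
      (fun b k _ x => if a = true then 0 else -(f k x * mon_El (N - d) b k x)))))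
  have hQ : ∀ a b, PR2 N (Q a b) := by
    rintro (_ | _) (b | b | b | b | b)
    · exact hcol b
    · exact h0
    · exact h0
    · exact hmD b
    · exact hmf b
    · exact hcol b
    · exact hm1 b
    · exact hmf b
    · exact h0
    · exact h0
  let Y : Bool → FP2 ι := fun a k _ x => if a = true then C X ^ N else 1
  have hY : ∀ a, PR2 N (Y a) := by
    rintro (_ | _)
    · exact PR2.one
    · exact PR2.xp
  have hlt : ∀ (k : Type) [Field k] (x : ι → k)
      (z : (Sx N ⊕ Sx (N - 1) ⊕ Sx (N - d) ⊕ Sx (N - e) ⊕ Sx (N - d)) → k),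
      lc z (fun b => Q true b k x) = lc (fun j => z (Sum.inl j)) (col fun i j => P i j k x) -
        pol (fun s => z (Sum.inr (Sum.inl s))) -
        f k x * pol (fun s => z (Sum.inr (Sum.inr (Sum.inl s)))) := by
    intro k _ x z
    unfold lc
    rw [Fintype.sum_sum_type, Fintype.sum_sum_type, Fintype.sum_sum_type, Fintype.sum_sum_type]
    simp only [Q, Sum.elim_inl, Sum.elim_inr, if_true, mul_zero, Finset.sum_const_zero, add_zero]
    rw [lc_mon_El x (N - 1) (fun s => z (Sum.inr (Sum.inl s))),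
      lc_mon_El x (N - d) (fun s => z (Sum.inr (Sum.inr (Sum.inl s))))]
    ring
  have hlf : ∀ (k : Type) [Field k] (x : ι → k)
      (z : (Sx N ⊕ Sx (N - 1) ⊕ Sx (N - d) ⊕ Sx (N - e) ⊕ Sx (N - d)) → k),
      lc z (fun b => Q false b k x) = lc (fun j => z (Sum.inl j)) (col fun i j => P i j k x) -
        D k x * pol (fun s => z (Sum.inr (Sum.inr (Sum.inr (Sum.inl s))))) -
        f k x * pol (fun s => z (Sum.inr (Sum.inr (Sum.inr (Sum.inr s))))) := by
    intro k _ x z
    unfold lc
    rw [Fintype.sum_sum_type, Fintype.sum_sum_type, Fintype.sum_sum_type, Fintype.sum_sum_type]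
    simp only [Q, Sum.elim_inl, Sum.elim_inr, if_false, mul_zero, Finset.sum_const_zero,
      zero_add, Bool.false_eq_true]
    rw [lc_mon_El x (N - e) (fun s => z (Sum.inr (Sum.inr (Sum.inr (Sum.inl s))))),
      lc_mon_El x (N - d) (fun s => z (Sum.inr (Sum.inr (Sum.inr (Sum.inr s)))))]
    ring
  obtain ⟨L, hL, hL2⟩ := exists_sol2 hQ hY
  refine ⟨fun s k _ x => ∑ j, L (Sum.inl j) k x * P s j k x,
    fun s => PRF.sum _ fun j _ => (hL (Sum.inl j)).mul (hP s j), fun k _ x hg => ?_⟩
  obtain ⟨g', ⟨⟨u, r, h1⟩, h, r', h2⟩, c, h3⟩ := hg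
  have h4 := hL2 k x ⟨Sum.elim c (Sum.elim u (Sum.elim r (Sum.elim h r'))), by
    rintro (_ | _)
    · rw [hlf]
      simp only [Sum.elim_inl, Sum.elim_inr, Y, Bool.false_eq_true, if_false]
      change lc c _ - D k x * pol h - f k x * pol r' = 1
      rw [← h3, h2]
      ring
    · rw [hlt]
      simp only [Sum.elim_inl, Sum.elim_inr, Y, if_true]
      change lc c _ - pol u - f k x * pol r = C X ^ N
      rw [← h3, h1]
      ring⟩
  have h5 : pol (fun s => ∑ j, L (Sum.inl j) k x * P s j k x) =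
      lc (fun j => L (Sum.inl j) k x) (col fun i j => P i j k x) :=
    pol_sum (fun j => L (Sum.inl j) k x) fun j s => P s j k x
  have h6 := h4 true
  have h7 := h4 false
  rw [hlt] at h6
  rw [hlf] at h7
  simp only [Y, if_true, if_false, Bool.false_eq_true] at h6 h7
  refine ⟨⟨⟨fun s => L (Sum.inr (Sum.inl s)) k x,
    fun s => L (Sum.inr (Sum.inr (Sum.inl s))) k x, ?_⟩,
    fun s => L (Sum.inr (Sum.inr (Sum.inr (Sum.inl s)))) k x,
    fun s => L (Sum.inr (Sum.inr (Sum.inr (Sum.inr s)))) k x, ?_⟩,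
    fun j => L (Sum.inl j) k x, h5⟩
  · rw [← h6]
    linear_combination h5
  · rw [← h7]
    linear_combination h5

end Pool.Agent.CvC
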