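import Pool.Agent.CvC.Cdi
import Pool.Agent.CvC.Card

/-!
# The orders of the class groups of plane curves are definable

`gc_def`: the order of `Gc hOk`, for the curve `f` with modulus `D` (both over `ZMod p`) over the extension
`AdjoinRoot h` of degree `m` of `ZMod p`, is a definable function of `p` and the coefficients of `h`, `f`,
`D`, for fixed `d`, `natDegree D = e` and `m`.
-/

set_option autoImplicit false

noncomputable section

namespace Pool.Agent.CvC

open Polynomial Pool.Agent.CvA Pool.Agent.CvB Pool.Agent.CvP Pool.Agent.CvF Pool.Agent.Grz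

private theorem pol_of_td {k : Type} [Field k] {N : ℕ} {Q : k[X][X]} (hQ : TD N Q)
    {c : Sx N → k} (h : ∀ s, c s = (Q.coeff (s.1.1 : ℕ)).coeff (s.1.2 : ℕ)) : Q = pol c := by
  rw [← pol_crd hQ]
  congr 1
  funext s
  exact (h s).symm

theorem gc_def (d e m : ℕ) (hm : 0 < m) :
    ∃ H : ℕ → (Fin m → ℕ) → (Fin (d + 1) → Fin (d + 1) → ℕ) → (Fin (e + 1) → ℕ) → ℕ,
      (∀ {n : ℕ} {p : (Fin n → ℕ) → ℕ} {hc : Fin m → (Fin n → ℕ) → ℕ}
        {c : Fin (d + 1) → Fin (d + 1) → (Fin n → ℕ) → ℕ} {Dc : Fin (e + 1) → (Fin n → ℕ) → ℕ},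
        DFun n p → (∀ l, DFun n (hc l)) → (∀ i j, DFun n (c i j)) → (∀ i, DFun n (Dc i)) →
        DFun n (fun v => H (p v) (fun l => hc l v) (fun i j => c i j v) fun i => Dc i v)) ∧
      ∀ (p : ℕ) [Fact p.Prime] (h : (ZMod p)[X]) [Fact (Irreducible h)], h.Monic →
        h.natDegree = m → ∀ (hc : Fin m → ℕ), (∀ l : Fin m, (hc l : ZMod p) = h.coeff l) →
        ∀ (f : (ZMod p)[X][X]) (c : Fin (d + 1) → Fin (d + 1) → ℕ),
          (∀ i j : Fin (d + 1), (c i j : ZMod p) = (f.coeff (j : ℕ)).coeff (i : ℕ)) →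
        ∀ (D : (ZMod p)[X]) (Dc : Fin (e + 1) → ℕ),
          (∀ i : Fin (e + 1), (Dc i : ZMod p) = D.coeff (i : ℕ)) → D.natDegree = e →
        ∀ hOk : Ok (fm (AdjoinRoot h) f) d (dm (AdjoinRoot h) D),
          H p hc c Dc = Nat.card (Gc hOk) := by
  obtain ⟨N, hN, key⟩ := card_gr d e m hm
  refine ⟨fun p hc c Dc => N p hc (Sum.elim (fun s : Sx d => c s.1.2 s.1.1)
    (fun s : Sx e => if (s.1.1 : ℕ) = 0 then Dc s.1.2 else 0)), ?_, ?_⟩
  · intro n p hc c Dc hp hhc hcc hD
    have h1 := hN (a := Sum.elim (fun s : Sx d => c s.1.2 s.1.1)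
      (fun s : Sx e => if (s.1.1 : ℕ) = 0 then Dc s.1.2 else fun _ => 0)) hp hhc (by
      rintro (s | s)
      · exact hcc _ _
      · by_cases h1 : (s.1.1 : ℕ) = 0
        · show DFun n (if (s.1.1 : ℕ) = 0 then Dc s.1.2 else fun _ => 0)
          rw [if_pos h1]
          exact hD _
        · show DFun n (if (s.1.1 : ℕ) = 0 then Dc s.1.2 else fun _ => 0)
          rw [if_neg h1]
          exact DFun.const 0)
    have h2 : ∀ v : Fin n → ℕ, (fun i => Sum.elim (fun s : Sx d => c s.1.2 s.1.1)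
        (fun s : Sx e => if (s.1.1 : ℕ) = 0 then Dc s.1.2 else fun _ => 0) i v) =
        Sum.elim (fun s : Sx d => c s.1.2 s.1.1 v)
          (fun s : Sx e => if (s.1.1 : ℕ) = 0 then Dc s.1.2 v else 0) := by
      intro v
      funext i
      rcases i with s | s
      · rfl
      · show (if (s.1.1 : ℕ) = 0 then Dc s.1.2 else fun _ => 0) v =
          if (s.1.1 : ℕ) = 0 then Dc s.1.2 v else 0
        split_ifs <;> rfl
    simp only [h2] at h1
    exact h1
  · intro p _ h _ hmo hd hc hhc f c hf D Dc hD he hOk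
    have hdom := dom_CA hOk.cv
    have hded := ded hOk
    have e1 : (dm (AdjoinRoot h) D).natDegree = e := by
      rw [← he]
      exact natDegree_map _
    have e2 : ∀ i j : ℕ, ((fm (AdjoinRoot h) f).coeff i).coeff j =
        algebraMap (ZMod p) (AdjoinRoot h) ((f.coeff i).coeff j) := by
      intro i j
      rw [coeff_map, coe_mapRingHom, coeff_map]
    refine key p h hmo hd hc hhc _ (CA (fm (AdjoinRoot h) f)) (CB (fm (AdjoinRoot h) f) d)
      (CR (fm (AdjoinRoot h) f) (dm (AdjoinRoot h) D)) (fl hOk.cv) (md hOk) (cd hOk) e1 ?_ ?_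
    · refine pol_of_td ((cd hOk).tf) fun s => ?_
      show ((Sum.elim (fun s : Sx d => c s.1.2 s.1.1)
        (fun s : Sx e => if (s.1.1 : ℕ) = 0 then Dc s.1.2 else 0) (Sum.inl s) : ℕ) :
          AdjoinRoot h) = ((fm (AdjoinRoot h) f).coeff _).coeff _
      rw [e2, ← hf, map_natCast]
      rfl
    · have h1 : TD e (cd hOk).D := by
        have h2 := (cd hOk).tD
        have h3 : (md hOk).Dl = e := e1
        rwa [h3] at h2
      refine pol_of_td h1 fun s => ?_
      show (((if (s.1.1 : ℕ) = 0 then Dc s.1.2 else 0 : ℕ)) : AdjoinRoot h) =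
        ((C (dm (AdjoinRoot h) D) : (AdjoinRoot h)[X][X]).coeff _).coeff _
      rw [coeff_C]
      split_ifs with h4
      · rw [coeff_map, ← hD, map_natCast]
      · rw [coeff_zero, Nat.cast_zero]

end Pool.Agent.CvC
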