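import Pool.Agent.CvC.Elem
import Pool.Agent.CvC.Colon

/-!
# Package CvC-Law: the law is piecewise rational (page 6.4)

`exists_law`. Compose: `g1`, `g2` from `exists_g` for `P`, `P'` (`N = 2 M`); `T` from `exists_colon` with
`J = Sx (2 M) × Sx (2 M)`, `U (j, j') = col P j * col P' j'` (`PR2.col`, `PR2.mul`, degree `4 M`),
`G = pol g1 * pol g2` (degree `4 M`), `L1 = 3 M`, `S = 3 M`, `R = 7 M - d`, `n = 7 M`; `g3` from
`exists_g` for `T` (`N = 3 M`); `L` from `exists_colon` with `J = Sx (3 M)`, `U j = col T j` (degree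
`3 M`), `G = pol g3`, `L1 = 2 M`, `S = 2 M`, `R = 5 M - d`, `n = 5 M`. Equalities of numbers like
`2 * M + 2 * M ≤ 7 * M - ...` by `omega`; use `PR2.mono` if the degree is not literally the one of the
statement.
-/

set_option autoImplicit false

noncomputable section

namespace Pool.Agent.CvC

open Polynomial Pool.Agent.PRc Pool.Agent.CvA

variable {ι : Type}

theorem exists_law {d e M : ℕ} (hd : d ≤ M) (he : e ≤ M)
    {P P' : Sx (2 * M) → Sx (2 * M) → FF ι} (hP : ∀ i j, PRF (P i j))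
    (hP' : ∀ i j, PRF (P' i j)) {f D : FP2 ι} (hf : PR2 d f) (hD : PR2 e D) :
    ∃ L : Sx (2 * M) → Sx (2 * M) → FF ι, (∀ i j, PRF (L i j)) ∧
      ∀ (k : Type) [Field k] (x : ι → k),
        (∃ g : Sx (2 * M) → k, InE d e (2 * M) (f k x) (D k x) (pol g) ∧
          InC (fun i j => P i j k x) (pol g)) →
        (∃ g : Sx (2 * M) → k, InE d e (2 * M) (f k x) (D k x) (pol g) ∧
          InC (fun i j => P' i j k x) (pol g)) →
        LR d e M (f k x) (D k x) (fun i j => P i j k x) (fun i j => P' i j k x)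
          (fun i j => L i j k x) := by
  obtain ⟨g1, hg1, h1⟩ := exists_g (N := 2 * M) (d := d) (e := e) (by omega) (by omega) hP hf hD
  obtain ⟨g2, hg2, h2⟩ := exists_g (N := 2 * M) (d := d) (e := e) (by omega) (by omega) hP' hf hD
  obtain ⟨T, hT, h3⟩ := exists_colon (J := Sx (2 * M) × Sx (2 * M)) (L1 := 3 * M)
    (L0 := 2 * M + 2 * M) (G0 := 2 * M + 2 * M) (S := 3 * M) (R := 7 * M - d) (n := 7 * M)
    (U := fun j k _ x => col (fun i j => P i j k x) j.1 * col (fun i j => P' i j k x) j.2)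
    (fun j => (PR2.col hP j.1).mul (PR2.col hP' j.2)) ((PR2.pol hg1).mul (PR2.pol hg2)) hf
    (by omega) (by omega) (by omega)
  obtain ⟨g3, hg3, h4⟩ := exists_g (N := 3 * M) (d := d) (e := e) (by omega) (by omega) hT hf hD
  obtain ⟨L, hL, h5⟩ := exists_colon (J := Sx (3 * M)) (L1 := 2 * M)
    (L0 := 3 * M) (G0 := 3 * M) (S := 2 * M) (R := 5 * M - d) (n := 5 * M)
    (U := fun j k _ x => col (fun i j => T i j k x) j)
    (fun j => PR2.col hT j) (PR2.pol hg3) hf (by omega) (by omega) (by omega)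
  refine ⟨L, hL, fun k _ x e1 e2 => ?_⟩
  refine ⟨fun s => g1 s k x, fun s => g2 s k x, fun s => g3 s k x, fun i j => T i j k x,
    (h1 k x e1).1, (h1 k x e1).2, (h2 k x e2).1, (h2 k x e2).2, fun t => ?_, h4 k x,
    fun t => h5 k x t⟩
  rw [h3 k x t]
  exact ⟨fun h j j' => h (j, j'), fun h j => h j.1 j.2⟩

end Pool.Agent.CvC
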