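import Pool.Agent.CvC.Bas
import Pool.Agent.PRc.Ex

/-!
# Package CvC-PR: families of polynomials in two variables

Closure properties of `PR2` (`td` from `CvC/Bas`, `pr` from the closure properties of `PRF` in
`PRc/Basic`): `Polynomial.coeff_add`, `coeff_mul` twice (`PRF.sum` over the antidiagonals),
`coeff_pol` for `pol`, `coeff_one`, `coeff_X_pow`, `coeff_C`. `eq2_pr`: two polynomials of total
degree at most `max N M` are equal iff all their coefficients with `i, j ≤ max N M` are
(`Polynomial.ext` twice, `td`): `PRQ.finAll` over `Finset.range`, `PRQ.eq`.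
-/

set_option autoImplicit false

noncomputable section

namespace Pool.Agent.CvC

open Polynomial Pool.Agent.PRc Pool.Agent.CvA

variable {ι κ : Type} {N M : ℕ} {F G : FP2 ι}

theorem PR2.congr (hF : PR2 N F) (h : ∀ (k : Type) [Field k] (x : ι → k), F k x = G k x) :
    PR2 N G := by
  have e : F = G := by
    funext k _ x
    exact h k x
  rwa [← e]

theorem PR2.mono (hF : PR2 N F) (h : N ≤ M) : PR2 M F :=
  ⟨fun k _ x => (hF.td k x).mono h, hF.pr⟩

theorem PR2.comp {F : FP2 κ} (hF : PR2 N F) {G : κ → FF ι} (hG : ∀ j, PRF (G j)) :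
    PR2 N (fun k _ x => F k fun j => G j k x) :=
  ⟨fun k _ _ => hF.td k _, fun i j => (hF.pr i j).comp hG⟩

theorem PR2.add (hF : PR2 N F) (hG : PR2 N G) : PR2 N (fun k _ x => F k x + G k x) :=
  ⟨fun k _ x => (hF.td k x).add (hG.td k x), fun i j =>
    ((hF.pr i j).add (hG.pr i j)).congr fun k _ x => by rw [coeff_add, coeff_add]⟩

theorem PR2.sub (hF : PR2 N F) (hG : PR2 N G) : PR2 N (fun k _ x => F k x - G k x) :=
  ⟨fun k _ x => (hF.td k x).sub (hG.td k x), fun i j =>
    ((hF.pr i j).sub (hG.pr i j)).congr fun k _ x => by rw [coeff_sub, coeff_sub]⟩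

theorem PR2.mul (hF : PR2 N F) (hG : PR2 M G) : PR2 (N + M) (fun k _ x => F k x * G k x) :=
  ⟨fun k _ x => (hF.td k x).mul (hG.td k x), fun i j =>
    (PRF.sum (Finset.HasAntidiagonal.antidiagonal i) (F := fun (a : ℕ × ℕ) k _ x =>
      ∑ b ∈ Finset.HasAntidiagonal.antidiagonal j,
        ((F k x).coeff a.1).coeff b.1 * ((G k x).coeff a.2).coeff b.2) fun a _ =>
      PRF.sum (Finset.HasAntidiagonal.antidiagonal j) fun b _ =>
        (hF.pr a.1 b.1).mul (hG.pr a.2 b.2)).congr
      fun k _ x => by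
        rw [coeff_mul, finsetSum_coeff]
        refine Finset.sum_congr rfl fun a _ => ?_
        rw [coeff_mul]⟩

theorem PR2.pol {c : Sx N → FF ι} (hc : ∀ s, PRF (c s)) :
    PR2 N (fun k _ x => CvC.pol fun s => c s k x) := by
  refine ⟨fun k _ x => td_pol _, fun i j => ?_⟩
  by_cases h : i + j ≤ N
  · refine (hc ⟨(⟨i, by omega⟩, ⟨j, by omega⟩), h⟩).congr fun k _ x => ?_
    rw [coeff_pol, dif_pos h]
  · refine PRF.zero.congr fun k _ x => ?_
    rw [coeff_pol, dif_neg h]

theorem PR2.zero : PR2 (ι := ι) N (fun _ _ _ => 0) :=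
  ⟨fun k _ x => td_zero, fun i j => PRF.zero.congr fun k _ x => by
    rw [coeff_zero, coeff_zero]⟩

theorem PR2.one : PR2 (ι := ι) N (fun _ _ _ => 1) := by
  refine ⟨fun k _ x => td_one, fun i j => ?_⟩
  by_cases hi : i = 0
  · by_cases hj : j = 0
    · refine PRF.one.congr fun k _ x => ?_
      subst hi hj
      simp
    · refine PRF.zero.congr fun k _ x => ?_
      subst hi
      rw [coeff_one, if_pos rfl, coeff_one, if_neg hj]
  · refine PRF.zero.congr fun k _ x => ?_
    rw [coeff_one, if_neg hi, coeff_zero]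

theorem PR2.xp : PR2 (ι := ι) N (fun _ _ _ => C X ^ N) := by
  refine ⟨fun k _ x => td_xp, fun i j => ?_⟩
  by_cases hi : i = 0
  · by_cases hj : j = N
    · refine PRF.one.congr fun k _ x => ?_
      subst hi hj
      rw [← C_pow, coeff_C, if_pos rfl, coeff_X_pow, if_pos rfl]
    · refine PRF.zero.congr fun k _ x => ?_
      subst hi
      rw [← C_pow, coeff_C, if_pos rfl, coeff_X_pow, if_neg hj]
  · refine PRF.zero.congr fun k _ x => ?_
    rw [← C_pow, coeff_C, if_neg hi, coeff_zero]

theorem PR2.lc {β : Type} [Fintype β] {c : β → FF ι} (hc : ∀ b, PRF (c b)) {q : β → FP2 ι}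
    (hq : ∀ b, PR2 N (q b)) :
    PR2 N (fun k _ x => CvC.lc (fun b => c b k x) fun b => q b k x) := by
  refine ⟨fun k _ x => td_lc (fun b => (hq b).td k x) _, fun i j => ?_⟩
  refine (PRF.sum Finset.univ (F := fun b k _ x => c b k x * ((q b k x).coeff i).coeff j)
    fun b _ => (hc b).mul ((hq b).pr i j)).congr fun k _ x => ?_
  rw [CvC.lc, finsetSum_coeff, finsetSum_coeff]
  refine Finset.sum_congr rfl fun b _ => ?_
  rw [coeff_C_mul, coeff_C_mul]

theorem PR2.col {β : Type} {P : Sx N → β → FF ι} (hP : ∀ i j, PRF (P i j)) (j : β) :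
    PR2 N (fun k _ x => CvC.col (fun i j => P i j k x) j) :=
  PR2.pol fun i => hP i j

theorem crd_pr (hF : PR2 N F) (M : ℕ) (s : Sx M) : PRF (fun k _ x => crd M (F k x) s) :=
  hF.pr _ _

theorem eq2_pr (hF : PR2 N F) (hG : PR2 M G) : PRQ (fun k _ x => F k x = G k x) := by
  refine (PRQ.finAll (Finset.range (max N M + 1)) (P := fun i k _ x =>
    ∀ j ∈ Finset.range (max N M + 1),
      ((F k x).coeff i).coeff j = ((G k x).coeff i).coeff j) fun i _ =>
    PRQ.finAll (Finset.range (max N M + 1)) fun j _ => PRQ.eq (hF.pr i j) (hG.pr i j)).congr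
    fun k _ x => ?_
  constructor
  · intro h
    ext i j
    by_cases hi : i < max N M + 1
    · by_cases hj : j < max N M + 1
      · exact h i (Finset.mem_range.2 hi) j (Finset.mem_range.2 hj)
      · have h1 : N ≤ max N M := le_max_left _ _
        have h2 : M ≤ max N M := le_max_right _ _
        rw [hF.td k x i j (by omega), hG.td k x i j (by omega)]
    · have h1 : N ≤ max N M := le_max_left _ _
      have h2 : M ≤ max N M := le_max_right _ _
      rw [hF.td k x i j (by omega), hG.td k x i j (by omega)]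
  · intro h i _ j _
    rw [h]

end Pool.Agent.CvC
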