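import Pool.Agent.CvC.PR

/-!
# Package CvC-RelX: the set of representatives is first-order

`PRQ` (`PRc/Ex`) is closed under negation, conjunction, quantification over vectors of field
elements indexed by a finite type (`PRQ.ex`, `PRQ.all`: context `ι ⊕ κ`), finite conjunctions
(`PRQ.allF`) and composition (`PRQ.comp`); equations between families of polynomials: `eq2_pr`.

* `inE_pr`: two conjuncts; each is `∃ z : (Sx (N - 1) ⊕ Sx (N - d)) → k` of an equation `eq2_pr`
  (`PR2.add`, `PR2.mul`, `PR2.pol`, `PR2.xp`, `PR2.mono`, `PR2.comp` for the old variables).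
* `inC_pr`, `inI_pr`, `li_pr` in the same way; `li_pr`: for all `z : (Fin n ⊕ Sx R) → k`, equation
  implies all the coordinates in `Fin n` are `0`.
* `xr_pr`: `∃ z : (Fin n × Sx (2 * M)) → k` for `c`; `∃ g`; `∃ t`; `∀ i j` finite. A vector
  `Fin n → Sx (2 * M) → k` is a vector indexed by `Fin n × Sx (2 * M)`.
-/

set_option autoImplicit false

noncomputable section

namespace Pool.Agent.CvC

open Polynomial Pool.Agent.PRc Pool.Agent.CvA

variable {ι : Type} {d e N M0 M1 M2 : ℕ}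

/-- quantification over vectors -/
private theorem exV {κ : Type} [Finite κ] {P : ∀ (k : Type) [Field k], (ι → k) → (κ → k) → Prop}
    (h : PRQ (fun k _ (y : ι ⊕ κ → k) => P k (fun i => y (Sum.inl i)) fun j => y (Sum.inr j))) :
    PRQ (fun k _ (x : ι → k) => ∃ z : κ → k, P k x z) :=
  h.ex.congr fun _ _ _ => Iff.rfl

private theorem allV {κ : Type} [Finite κ] {P : ∀ (k : Type) [Field k], (ι → k) → (κ → k) → Prop}
    (h : PRQ (fun k _ (y : ι ⊕ κ → k) => P k (fun i => y (Sum.inl i)) fun j => y (Sum.inr j))) :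
    PRQ (fun k _ (x : ι → k) => ∀ z : κ → k, P k x z) :=
  h.all.congr fun _ _ _ => Iff.rfl

private theorem exVV {κ μ : Type} [Finite κ] [Finite μ]
    {P : ∀ (k : Type) [Field k], (ι → k) → (κ → μ → k) → Prop}
    (h : PRQ (fun k _ (y : ι ⊕ (κ × μ) → k) =>
      P k (fun i => y (Sum.inl i)) fun j m => y (Sum.inr (j, m)))) :
    PRQ (fun k _ (x : ι → k) => ∃ z : κ → μ → k, P k x z) := by
  refine (exV (P := fun k _ x (z : κ × μ → k) => P k x fun j m => z (j, m)) h).congr ?_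
  intro k _ x
  exact ⟨fun ⟨z, hz⟩ => ⟨fun j m => z (j, m), hz⟩, fun ⟨z, hz⟩ => ⟨fun p => z p.1 p.2, hz⟩⟩

/-- old variables -/
private theorem inlR {κ : Type} {F : FP2 ι} {N : ℕ} (hF : PR2 N F) :
    PR2 N (fun k _ (y : ι ⊕ κ → k) => F k fun i => y (Sum.inl i)) :=
  hF.comp (G := fun j => fun k _ (y : ι ⊕ κ → k) => y (Sum.inl j)) fun j => PRF.var (Sum.inl j)

private theorem inlF {κ : Type} {F : FF ι} (hF : PRF F) :
    PRF (fun k _ (y : ι ⊕ κ → k) => F k fun i => y (Sum.inl i)) :=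
  hF.comp (G := fun j => fun k _ (y : ι ⊕ κ → k) => y (Sum.inl j)) fun j => PRF.var (Sum.inl j)

private theorem addM {N M : ℕ} {F G : FP2 ι} (hF : PR2 N F) (hG : PR2 M G) :
    PR2 (max N M) (fun k _ x => F k x + G k x) :=
  (hF.mono (le_max_left N M)).add (hG.mono (le_max_right N M))

/-- the polynomial with the new variables as coefficients -/
private theorem polR {N : ℕ} :
    PR2 N (fun k _ (y : ι ⊕ Sx N → k) => pol fun j => y (Sum.inr j)) :=
  PR2.pol (c := fun s => fun k _ (y : ι ⊕ Sx N → k) => y (Sum.inr s)) fun s => PRF.var (Sum.inr s)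

theorem inE_pr {f D Q : FP2 ι} (hf : PR2 M0 f) (hD : PR2 M1 D) (hQ : PR2 M2 Q) :
    PRQ (fun k _ x => InE d e N (f k x) (D k x) (Q k x)) := by
  refine PRQ.and ?_ ?_
  · refine exV (P := fun k _ x (u : Sx (N - 1) → k) => ∃ r : Sx (N - d) → k,
      Q k x = C X ^ N + pol u + f k x * pol r) ?_
    refine exV (P := fun k _ (y : ι ⊕ Sx (N - 1) → k) (r : Sx (N - d) → k) =>
      Q k (fun i => y (Sum.inl i)) = C X ^ N + pol (fun j => y (Sum.inr j)) +
        f k (fun i => y (Sum.inl i)) * pol r) ?_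
    exact eq2_pr (inlR (inlR hQ)) (addM (addM PR2.xp (inlR polR)) ((inlR (inlR hf)).mul polR))
  · refine exV (P := fun k _ x (h : Sx (N - e) → k) => ∃ r : Sx (N - d) → k,
      Q k x = 1 + D k x * pol h + f k x * pol r) ?_
    refine exV (P := fun k _ (y : ι ⊕ Sx (N - e) → k) (r : Sx (N - d) → k) =>
      Q k (fun i => y (Sum.inl i)) = 1 + D k (fun i => y (Sum.inl i)) *
        pol (fun j => y (Sum.inr j)) + f k (fun i => y (Sum.inl i)) * pol r) ?_
    exact eq2_pr (inlR (inlR hQ)) (addM (addM (PR2.one (N := 0))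
      ((inlR (inlR hD)).mul (inlR polR))) ((inlR (inlR hf)).mul polR))

theorem inC_pr {P : Sx N → Sx N → FF ι} (hP : ∀ i j, PRF (P i j)) {Q : FP2 ι}
    (hQ : PR2 M0 Q) : PRQ (fun k _ x => InC (fun i j => P i j k x) (Q k x)) := by
  refine exV (P := fun k _ x (c : Sx N → k) =>
    Q k x = lc c (col fun i j => P i j k x)) ?_
  refine eq2_pr (inlR hQ) (PR2.lc (N := N)
    (c := fun b => fun k _ (y : ι ⊕ Sx N → k) => y (Sum.inr b))
    (fun b => PRF.var (Sum.inr b)) (q := fun b => fun k _ (y : ι ⊕ Sx N → k) =>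
      col (fun i j => P i j k fun i => y (Sum.inl i)) b) ?_)
  intro b
  exact PR2.col (P := fun i j => fun k _ (y : ι ⊕ Sx N → k) => P i j k fun i => y (Sum.inl i))
    (fun i j => inlF (hP i j)) b

theorem inI_pr {S R : ℕ} {G f Q : FP2 ι} (hG : PR2 M0 G) (hf : PR2 M1 f) (hQ : PR2 M2 Q) :
    PRQ (fun k _ x => InI S R (G k x) (f k x) (Q k x)) := by
  refine exV (P := fun k _ x (s : Sx S → k) => ∃ r : Sx R → k,
    Q k x = G k x * pol s + f k x * pol r) ?_
  refine exV (P := fun k _ (y : ι ⊕ Sx S → k) (r : Sx R → k) =>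
    Q k (fun i => y (Sum.inl i)) = G k (fun i => y (Sum.inl i)) * pol (fun j => y (Sum.inr j)) +
      f k (fun i => y (Sum.inl i)) * pol r) ?_
  exact eq2_pr (inlR (inlR hQ)) (addM ((inlR (inlR hG)).mul (inlR polR))
    ((inlR (inlR hf)).mul polR))

theorem li_pr {R n : ℕ} {f : FP2 ι} (hf : PR2 M0 f) {q : Fin n → FP2 ι}
    (hq : ∀ i, PR2 M1 (q i)) : PRQ (fun k _ x => LI R (f k x) fun i => q i k x) := by
  refine allV (P := fun k _ x (c : Fin n → k) => ∀ r : Sx R → k,
    lc c (fun i => q i k x) = f k x * pol r → c = 0) ?_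
  refine allV (P := fun k _ (y : ι ⊕ Fin n → k) (r : Sx R → k) =>
    lc (fun j => y (Sum.inr j)) (fun i => q i k fun i => y (Sum.inl i)) =
      f k (fun i => y (Sum.inl i)) * pol r → (fun j => y (Sum.inr j)) = 0) ?_
  refine PRQ.imp ?_ ?_
  · refine eq2_pr (PR2.lc (N := M1)
      (c := fun b => fun k _ (y : (ι ⊕ Fin n) ⊕ Sx R → k) => y (Sum.inl (Sum.inr b)))
      (fun b => PRF.var (Sum.inl (Sum.inr b)))
      (q := fun b => fun k _ (y : (ι ⊕ Fin n) ⊕ Sx R → k) =>
        q b k fun i => y (Sum.inl (Sum.inl i))) fun b => ?_) ((inlR (inlR hf)).mul polR)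
    exact inlR (inlR (hq b))
  · refine (PRQ.allF (α := Fin n)
      (P := fun j => fun k _ (y : (ι ⊕ Fin n) ⊕ Sx R → k) => y (Sum.inl (Sum.inr j)) = 0)
      fun j => PRQ.eq (PRF.var _) PRF.zero).congr ?_
    intro k _ x
    exact funext_iff.symm

theorem xr_pr {M n : ℕ} {f D : FP2 ι} (hf : PR2 M0 f) (hD : PR2 M1 D)
    {P : Sx (2 * M) → Sx (2 * M) → FF ι} (hP : ∀ i j, PRF (P i j)) :
    PRQ (fun k _ x => XR d e M n (f k x) (D k x) fun i j => P i j k x) := by
  refine PRQ.and ?_ ?_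
  · refine exVV (P := fun k _ x (c : Fin n → Sx (2 * M) → k) =>
      LI (2 * M - d) (f k x) fun i => lc (c i) (col fun i j => P i j k x)) ?_
    refine li_pr (M1 := 2 * M) (inlR hf)
      (q := fun i => fun k _ (y : ι ⊕ (Fin n × Sx (2 * M)) → k) =>
        lc (fun m => y (Sum.inr (i, m))) (col fun i j => P i j k fun i => y (Sum.inl i))) ?_
    intro i
    refine PR2.lc (N := 2 * M)
      (c := fun b => fun k _ (y : ι ⊕ (Fin n × Sx (2 * M)) → k) => y (Sum.inr (i, b)))
      (fun b => PRF.var _) (q := fun b => fun k _ (y : ι ⊕ (Fin n × Sx (2 * M)) → k) =>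
        col (fun i j => P i j k fun i => y (Sum.inl i)) b) fun b => ?_
    exact PR2.col (P := fun i j => fun k _ (y : ι ⊕ (Fin n × Sx (2 * M)) → k) =>
      P i j k fun i => y (Sum.inl i)) (fun i j => inlF (hP i j)) b
  · refine exV (P := fun k _ x (g : Sx (2 * M) → k) =>
      InE d e (2 * M) (f k x) (D k x) (pol g) ∧ InC (fun i j => P i j k x) (pol g) ∧
      ∃ t : Fin n → Sx (2 * M) → k, (LI (2 * M - d) (f k x) fun i => pol (t i)) ∧
        ∀ i j, InI (2 * M) (4 * M - d) (pol g) (f k x)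
          (pol (t i) * col (fun i j => P i j k x) j)) ?_
    refine PRQ.and (inE_pr (inlR hf) (inlR hD) polR) (PRQ.and ?_ ?_)
    · exact inC_pr (P := fun i j => fun k _ (y : ι ⊕ Sx (2 * M) → k) =>
        P i j k fun i => y (Sum.inl i)) (fun i j => inlF (hP i j)) polR
    · refine exVV (P := fun k _ (y : ι ⊕ Sx (2 * M) → k) (t : Fin n → Sx (2 * M) → k) =>
        (LI (2 * M - d) (f k fun i => y (Sum.inl i)) fun i => pol (t i)) ∧
        ∀ i j, InI (2 * M) (4 * M - d) (pol fun j => y (Sum.inr j)) (f k fun i => y (Sum.inl i))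
          (pol (t i) * col (fun i j => P i j k fun i => y (Sum.inl i)) j)) ?_
      have hpol : ∀ i : Fin n, PR2 (2 * M)
          (fun k _ (y : (ι ⊕ Sx (2 * M)) ⊕ (Fin n × Sx (2 * M)) → k) =>
            pol fun m => y (Sum.inr (i, m))) := fun i =>
        PR2.pol (c := fun s => fun k _ (y : (ι ⊕ Sx (2 * M)) ⊕ (Fin n × Sx (2 * M)) → k) =>
          y (Sum.inr (i, s))) fun s => PRF.var _
      refine PRQ.and (li_pr (inlR (inlR hf)) hpol) ?_
      refine PRQ.allF fun i => PRQ.allF fun j => ?_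
      refine inI_pr (inlR polR) (inlR (inlR hf)) ((hpol i).mul (M := 2 * M) ?_)
      exact PR2.col (P := fun i j =>
        fun k _ (y : (ι ⊕ Sx (2 * M)) ⊕ (Fin n × Sx (2 * M)) → k) =>
          P i j k fun i => y (Sum.inl (Sum.inl i)))
        (fun i j => inlF (inlF (hP i j))) j

end Pool.Agent.CvC
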