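import Pool.Agent.CvC.Bas
import Pool.Agent.CvR.Bez

/-!
# Package CvC-VerA: coordinates of the filtered algebra

`E : Cd F P` (see `CvC/Defs`): `F` is the coordinate ring of the plane curve `E.f = 0` with the residue
map `E.φ : k[X][X] → A`. Write `x = C X`.

* `phi_lc`: `φ (lc c q) = ∑ c_b • φ (q b)` (`map_sum`, `map_mul`, `AlgHom.commutes`:
  `C (C a) = algebraMap k k[X][X] a`).
* `eq_iff`: `Q`, `Q'` of total degree at most `N`, `d ≤ N`: `φ Q = φ Q'` iff `f ∣ Q - Q'` (`ker`), iff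
  `Q - Q' = f r`; then `TD N (f r)` (`TD.sub`), so `r = 0` or `TD (N - d) r` (`quo`); `r = pol (crd r)`.
  (If `f r` is given then `φ (f r) = 0` by `ker`.)
* `mem_V`: `a ∈ V N` iff `a = φ (pol c)` for some `c` (`E.V`, `pol_crd`).
* `inE_iff`: `φ Q ∈ E N` iff `φ Q ∈ V N`, `l N (φ Q) = 1`, `D ∣ φ Q - 1`. `(⇐)` is direct:
  `l N (φ x ^ N) = 1` (`lx`), `l N` vanishes on `V (N - 1)` (`F.l_succ`), `φ D = P.D` (`eD`).
  `(⇒ InE)`: `l N (φ Q - φ x ^ N) = 0`, so `φ Q - φ x ^ N ∈ V (N - 1)` (`l_succ`, `N = N' + 1`), it is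
  `φ (pol u)`, and `eq_iff`. `φ Q - 1 = φ D * h`, `h ∈ V (N - Dl)` by `CvR.bez_mem`
  (`φ Q - 1 ∈ V N = V (Dl + (N - Dl))`, `P.mem`, `P.unit`), and `eq_iff`.
* `inI_iff`: `eq_iff` with `G * pol s` (`TD.mul`).
* `mem_Wd`, `wd_le`: `Submodule.mem_span_range_iff_exists_fun`, `phi_lc`, `E.V`, `td_pol`.
* `li_iff`: `∑ c_i φ (q i) = 0` iff `lc c q = f * pol r` for some `r` (`eq_iff` with `Q' = 0`),
  `Fintype.linearIndependent_iff`.
-/

set_option autoImplicit false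

noncomputable section

namespace Pool.Agent.CvC

open Polynomial Pool.Agent.CvA

variable {k A B : Type} [Field k] [CommRing A] [Algebra k A] [CommRing B] [Algebra k B] {d : ℕ}
  {F : Flt k A B d} {P : Md F} (E : Cd F P)

theorem phi_lc {β : Type} [Fintype β] (c : β → k) (q : β → k[X][X]) :
    E.φ (lc c q) = ∑ b, c b • E.φ (q b) := by
  unfold lc
  rw [map_sum]
  refine Finset.sum_congr rfl fun b _ => ?_
  rw [map_mul, Algebra.smul_def]
  congr 1
  exact E.φ.commutes (c b)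

private theorem phi_f_VerA (r : k[X][X]) : E.φ (E.f * r) = 0 := (E.ker _).2 (dvd_mul_right _ _)

theorem eq_iff {N : ℕ} (hd : d ≤ N) {Q Q' : k[X][X]} (hQ : TD N Q) (hQ' : TD N Q') :
    E.φ Q = E.φ Q' ↔ ∃ r : Sx (N - d) → k, Q = Q' + E.f * pol r := by
  constructor
  · intro h
    have h1 : E.φ (Q - Q') = 0 := by rw [map_sub, h, sub_self]
    obtain ⟨r, hr⟩ := (E.ker _).1 h1
    have h2 : TD N (E.f * r) := by
      rw [← hr]
      exact hQ.sub hQ'
    by_cases h0 : r = 0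
    · refine ⟨fun _ => 0, ?_⟩
      rw [pol_zero, mul_zero, add_zero]
      rw [h0, mul_zero] at hr
      exact sub_eq_zero.1 hr
    · refine ⟨crd (N - d) r, ?_⟩
      rw [pol_crd (E.quo N r h2 h0).2, ← hr]
      ring
  · rintro ⟨r, rfl⟩
    rw [map_add, phi_f_VerA E, add_zero]

theorem mem_V {N : ℕ} (a : A) : a ∈ F.V N ↔ ∃ c : Sx N → k, E.φ (pol c) = a := by
  rw [E.V]
  constructor
  · rintro ⟨Q, hQ, rfl⟩
    exact ⟨crd N Q, by rw [pol_crd hQ]⟩
  · rintro ⟨c, rfl⟩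
    exact ⟨pol c, td_pol c, rfl⟩

private theorem phi_mem_VerA {N : ℕ} {Q : k[X][X]} (hQ : TD N Q) : E.φ Q ∈ F.V N :=
  (E.V N _).2 ⟨Q, hQ, rfl⟩

theorem inE_iff {N : ℕ} (h1 : 1 ≤ N) (hd : d ≤ N) (he : P.Dl ≤ N) {Q : k[X][X]}
    (hQ : TD N Q) : InE d P.Dl N E.f E.D Q ↔ E.φ Q ∈ P.E N := by
  obtain ⟨N', rfl⟩ : ∃ N', N = N' + 1 := ⟨N - 1, by omega⟩
  have hN : N' + 1 - 1 = N' := by omega
  have hx : TD (N' + 1) ((C X : k[X][X]) ^ (N' + 1)) := td_xp
  constructor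
  · rintro ⟨⟨u, r, hu⟩, ⟨h, r', hh⟩⟩
    refine ⟨phi_mem_VerA E hQ, ?_, ?_⟩
    · have h2 : E.φ (pol u) ∈ F.V N' := phi_mem_VerA E (td_pol u)
      have h3 : F.l (N' + 1) (E.φ (pol u)) = 0 := (F.l_succ N' _ (F.mono _ h2)).2 h2
      have h4 : E.φ Q = E.φ (C X ^ (N' + 1)) + E.φ (pol u) := by
        rw [hu, map_add, phi_f_VerA E, add_zero, map_add]
      rw [h4, map_add, h3, add_zero]
      exact E.lx _
    · refine ⟨E.φ (pol h), ?_⟩
      rw [hh, map_add, map_add, phi_f_VerA E, map_one, map_mul, E.eD]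
      ring
  · rintro ⟨h2, h3, h4⟩
    constructor
    · have h5 : E.φ Q - E.φ (C X ^ (N' + 1)) ∈ F.V (N' + 1) :=
        Submodule.sub_mem _ h2 (phi_mem_VerA E hx)
      have h6 : E.φ Q - E.φ (C X ^ (N' + 1)) ∈ F.V N' := by
        refine (F.l_succ N' _ h5).1 ?_
        rw [map_sub, h3, E.lx, sub_self]
      obtain ⟨u, hu⟩ := (mem_V E _).1 h6
      refine ⟨u, ?_⟩
      refine (eq_iff E hd hQ (hx.add ((td_pol u).mono (by omega)))).1 ?_
      rw [map_add, hu]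
      ring
    · obtain ⟨h, hh⟩ := h4
      have h5 : E.φ Q - 1 ∈ F.V (N' + 1) := by
        refine Submodule.sub_mem _ h2 ?_
        have h6 := phi_mem_VerA E (N := N' + 1) (Q := 1) td_one
        rwa [map_one] at h6
      have h7 : h ∈ F.V (N' + 1 - P.Dl) := by
        refine CvR.bez_mem F P.mem P.unit ?_
        rw [← hh, Nat.add_sub_cancel' he]
        exact h5
      obtain ⟨c, hc⟩ := (mem_V E _).1 h7
      refine ⟨c, ?_⟩
      have h8 : TD (N' + 1) (E.D * pol c) := by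
        have h9 := E.tD.mul (td_pol c)
        rwa [Nat.add_sub_cancel' he] at h9
      refine (eq_iff E hd hQ (td_one.add h8)).1 ?_
      rw [map_add, map_one, map_mul, E.eD, hc, ← hh]
      ring

theorem inI_iff {S G0 n : ℕ} {G Q : k[X][X]} (hG : TD G0 G) (hQ : TD n Q) (h : G0 + S ≤ n)
    (hd : d ≤ n) : InI S (n - d) G E.f Q ↔ ∃ s ∈ F.V S, E.φ Q = E.φ G * s := by
  constructor
  · rintro ⟨s, r, rfl⟩
    refine ⟨E.φ (pol s), phi_mem_VerA E (td_pol s), ?_⟩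
    rw [map_add, phi_f_VerA E, add_zero, map_mul]
  · rintro ⟨s, hs, h1⟩
    obtain ⟨c, rfl⟩ := (mem_V E _).1 hs
    refine ⟨c, ?_⟩
    refine (eq_iff E hd hQ ((hG.mul (td_pol c)).mono h)).1 ?_
    rw [map_mul]
    exact h1

theorem mem_Wd {N : ℕ} {β : Type} [Fintype β] (Q : Sx N → β → k) (a : A) :
    a ∈ Wd E Q ↔ ∃ c : β → k, a = E.φ (lc c (col Q)) := by
  unfold Wd
  rw [Submodule.mem_span_range_iff_exists_fun]
  constructor
  · rintro ⟨c, rfl⟩
    exact ⟨c, (phi_lc E c _).symm⟩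
  · rintro ⟨c, rfl⟩
    exact ⟨c, (phi_lc E c _).symm⟩

theorem wd_le {N : ℕ} {β : Type} [Fintype β] (Q : Sx N → β → k) : Wd E Q ≤ F.V N := by
  unfold Wd
  rw [Submodule.span_le]
  rintro _ ⟨j, rfl⟩
  exact phi_mem_VerA E (td_pol _)

theorem li_iff {N n : ℕ} (hd : d ≤ N) {q : Fin n → k[X][X]} (hq : ∀ i, TD N (q i)) :
    LI (N - d) E.f q ↔ LinearIndependent k fun i => E.φ (q i) := by
  have key : ∀ c : Fin n → k, (∑ i, c i • E.φ (q i) = 0) ↔
      ∃ r : Sx (N - d) → k, lc c q = E.f * pol r := by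
    intro c
    rw [← phi_lc]
    have h1 := eq_iff E hd (td_lc hq c) (td_zero (k := k) (N := N))
    rw [map_zero] at h1
    rw [h1]
    simp only [zero_add]
  rw [Fintype.linearIndependent_iff]
  constructor
  · intro h c hc i
    obtain ⟨r, hr⟩ := (key c).1 hc
    exact congrFun (h c r hr) i
  · intro h c r hr
    exact funext fun i => h c ((key c).2 ⟨r, hr⟩) i

end Pool.Agent.CvC
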